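import Mathlib

set_option autoImplicit false

namespace Pool.Agent.H846R3.RF

open Matrix

abbrev Gam := Matrix.SpecialLinearGroup (Fin 5) ℤ

/-- elementary matrix (total version) -/
def el (i j : Fin 5) (c : ℤ) : Gam :=
  if h : i ≠ j then Matrix.SpecialLinearGroup.transvection h c else 1

lemma mul_el (g : Gam) {i j : Fin 5} (h : i ≠ j) (c : ℤ) (p l : Fin 5) :
    (g * el i j c) p l = g p l + if l = j then c * g p i else 0 := by
  rw [el, dif_pos h]
  simp only [Matrix.SpecialLinearGroup.coe_mul, Matrix.SpecialLinearGroup.transvection_coe,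
    Matrix.mul_add, Matrix.mul_one, Matrix.add_apply]
  congr 1
  by_cases hl : l = j
  · subst hl
    rw [Matrix.mul_single_apply_same]; simp [mul_comm]
  · rw [Matrix.mul_single_apply_of_ne _ _ _ _ _ (fun h => hl h)]
    simp [hl]

lemma el_mul (g : Gam) {i j : Fin 5} (h : i ≠ j) (c : ℤ) (p l : Fin 5) :
    (el i j c * g) p l = g p l + if p = i then c * g j l else 0 := by
  rw [el, dif_pos h]
  simp only [Matrix.SpecialLinearGroup.coe_mul, Matrix.SpecialLinearGroup.transvection_coe,
    Matrix.add_mul, Matrix.one_mul, Matrix.add_apply]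
  congr 1
  by_cases hl : p = i
  · subst hl
    rw [Matrix.single_mul_apply_same]; simp
  · rw [Matrix.single_mul_apply_of_ne _ _ _ _ _ (fun h => hl h)]
    simp [hl]

lemma el_zero (i j : Fin 5) : el i j 0 = 1 := by
  unfold el
  split_ifs <;> simp

lemma el_add (i j : Fin 5) (a b : ℤ) : el i j (a + b) = el i j a * el i j b := by
  unfold el
  split_ifs
  · exact Matrix.SpecialLinearGroup.transvection_add _ _ _
  · simp

lemma el_inv (i j : Fin 5) (a : ℤ) : (el i j a)⁻¹ = el i j (-a) := by
  rw [inv_eq_iff_mul_eq_one, ← el_add, add_neg_cancel, el_zero]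

lemma el_one_zpow (i j : Fin 5) (a : ℤ) : (el i j 1) ^ a = el i j a := by
  induction a using Int.induction_on with
  | zero => rw [zpow_zero, el_zero]
  | succ n ih => rw [_root_.zpow_add_one, ih, ← el_add]
  | pred n ih => rw [_root_.zpow_sub_one, ih, el_inv, ← el_add]; rfl

lemma el_apply {i j : Fin 5} (h : i ≠ j) (c : ℤ) (p l : Fin 5) :
    (el i j c) p l = (if p = l then 1 else 0) + if p = i ∧ l = j then c else 0 := by
  have := mul_el 1 h c p l
  rw [one_mul] at this
  rw [this]
  simp only [Matrix.SpecialLinearGroup.coe_one, Matrix.one_apply]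
  by_cases h1 : l = j <;> by_cases h2 : p = i <;> simp [h1, h2]

/-- ℓ¹ norm of row `p`. -/
def nr (g : Gam) (p : Fin 5) : ℕ := ∑ l, (g p l).natAbs

lemma nr_mul_el (g : Gam) {i j : Fin 5} (h : i ≠ j) (c : ℤ) (p : Fin 5) :
    nr (g * el i j c) p + (g p j).natAbs = nr g p + (g p j + c * g p i).natAbs := by
  unfold nr
  have h1 : ∀ l, ((g * el i j c) p l).natAbs =
      (if l = j then (g p j + c * g p i).natAbs else (g p l).natAbs) := by
    intro l
    rw [mul_el g h]
    by_cases hl : l = j <;> simp [hl]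
  rw [Finset.sum_congr rfl (fun l _ => h1 l)]
  rw [← Finset.add_sum_erase _ _ (Finset.mem_univ j),
    ← Finset.add_sum_erase _ (fun l => (g p l).natAbs) (Finset.mem_univ j)]
  rw [if_pos rfl]
  have : ∑ x ∈ Finset.univ.erase j, (if x = j then (g p j + c * g p i).natAbs else (g p x).natAbs)
      = ∑ x ∈ Finset.univ.erase j, (g p x).natAbs := by
    apply Finset.sum_congr rfl
    intro x hx
    rw [if_neg (Finset.ne_of_mem_erase hx)]
  rw [this]
  omega

/-- signed permutation matrix description -/
def IsSP (g : Gam) (σ : Equiv.Perm (Fin 5)) (ε : Fin 5 → ℤ) : Prop :=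
  (∀ i, ε i = 1 ∨ ε i = -1) ∧ ∀ i j, g i j = if j = σ i then ε i else 0

end Pool.Agent.H846R3.RF
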