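import Mathlib
import Pool.Agent.H846R3.RF.Basic

set_option autoImplicit false

namespace Pool.Agent.H846R3.RF

variable {E : Type*} [Group E]

structure Sys (π : E →* Gam) where
  x : Fin 5 → Fin 5 → E
  M : Subgroup E
  hx : ∀ i j, i ≠ j → π (x i j) = el i j 1
  comm : ∀ i j k l, i ≠ j → k ≠ l → j ≠ k → i ≠ l → x i j * x k l = x k l * x i j
  st : ∀ i j k, i ≠ j → j ≠ k → i ≠ k → x i j * x j k = x i k * x j k * x i j
  inj : ∀ m ∈ M, π m = 1 → m = 1
  conj : ∀ m ∈ M, ∃ (σ : Equiv.Perm (Fin 5)) (ε : Fin 5 → ℤ), IsSP (π m) σ ε ∧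
    ∀ i j, i ≠ j → m * x (σ i) (σ j) * m⁻¹ = x i j ^ (ε i * ε j)
  w : ∀ i j, i ≠ j → x i j * (x j i)⁻¹ * x i j ∈ M

variable {π : E →* Gam}

namespace Sys

variable (S : Sys π)

include S

lemma pi_x {i j : Fin 5} (h : i ≠ j) (t : ℤ) : π (S.x i j ^ t) = el i j t := by
  rw [map_zpow, S.hx i j h, el_one_zpow]

lemma comm_z {i j k l : Fin 5} (h1 : i ≠ j) (h2 : k ≠ l) (h3 : j ≠ k) (h4 : i ≠ l) (a b : ℤ) :
    S.x i j ^ a * S.x k l ^ b = S.x k l ^ b * S.x i j ^ a :=
  ((show Commute (S.x i j) (S.x k l) from S.comm i j k l h1 h2 h3 h4).zpow_zpow a b)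

lemma st_z {i j k : Fin 5} (h1 : i ≠ j) (h2 : j ≠ k) (h3 : i ≠ k) (a b : ℤ) :
    S.x i j ^ a * S.x j k ^ b = S.x i k ^ (a * b) * S.x j k ^ b * S.x i j ^ a := by
  have hZY : Commute (S.x i k) (S.x j k) := S.comm i k j k h3 h2 h2.symm h3
  have hZX : Commute (S.x i k) (S.x i j) := S.comm i k i j h3 h1 h3.symm h1
  have e1 : S.x i j * S.x j k * (S.x i j)⁻¹ = S.x i k * S.x j k := by
    rw [S.st i j k h1 h2 h3]; group
  have e2 : S.x i j * S.x j k ^ b * (S.x i j)⁻¹ = S.x i k ^ b * S.x j k ^ b := by
    rw [← conj_zpow, e1, hZY.mul_zpow]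
  have e3 : (S.x j k ^ b)⁻¹ * S.x i j * S.x j k ^ b = S.x i k ^ b * S.x i j := by
    have h5 : S.x i j * S.x j k ^ b = S.x i k ^ b * S.x j k ^ b * S.x i j := by
      rw [← e2]; group
    have h6 : S.x i k ^ b * S.x j k ^ b = S.x j k ^ b * S.x i k ^ b := (hZY.zpow_zpow b b)
    rw [mul_assoc, h5, h6]; group
  have e4 : (S.x j k ^ b)⁻¹ * S.x i j ^ a * S.x j k ^ b = S.x i k ^ (a * b) * S.x i j ^ a := by
    have h7 := conj_zpow (a := (S.x j k ^ b)⁻¹) (b := S.x i j) (i := a)
    rw [inv_inv] at h7
    rw [← h7, e3, (hZX.zpow_left b).mul_zpow, ← zpow_mul, mul_comm b a]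
  have h8 : S.x i k ^ (a * b) * S.x j k ^ b = S.x j k ^ b * S.x i k ^ (a * b) :=
    (hZY.zpow_zpow _ b)
  rw [h8, mul_assoc, ← e4]; group

/-- row entries -/
def R (_ : Sys π) (p : Fin 5) (s : E) (l : Fin 5) : ℤ := (π s) p l

def N (_ : Sys π) (p : Fin 5) (s : E) : ℕ := nr (π s) p

lemma R_mul {i j : Fin 5} (h : i ≠ j) (p : Fin 5) (s : E) (t : ℤ) (l : Fin 5) :
    S.R p (s * S.x i j ^ t) l = S.R p s l + if l = j then t * S.R p s i else 0 := by
  unfold R
  rw [map_mul, S.pi_x h, mul_el _ h]

lemma N_mul {i j : Fin 5} (h : i ≠ j) (p : Fin 5) (s : E) (t : ℤ) :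
    S.N p (s * S.x i j ^ t) + (S.R p s j).natAbs =
      S.N p s + (S.R p s j + t * S.R p s i).natAbs := by
  unfold N R
  rw [map_mul, S.pi_x h, nr_mul_el _ h]

lemma R_mulM {m : E} {σ : Equiv.Perm (Fin 5)} {ε : Fin 5 → ℤ} (hm : IsSP (π m) σ ε)
    (p : Fin 5) (s : E) (l : Fin 5) :
    S.R p (s * m) (σ l) = ε l * S.R p s l := by
  unfold R
  rw [map_mul, Matrix.SpecialLinearGroup.coe_mul, Matrix.mul_apply]
  rw [Finset.sum_eq_single l]
  · rw [hm.2 l (σ l), if_pos rfl, mul_comm]
  · intro b _ hb
    rw [hm.2 b (σ l), if_neg (fun h => hb (σ.injective h).symm), mul_zero]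
  · simp

lemma N_mulM {m : E} (hm : m ∈ S.M) (p : Fin 5) (s : E) : S.N p (s * m) = S.N p s := by
  obtain ⟨σ, ε, hsp, -⟩ := S.conj m hm
  have h1 : ∀ l, (S.R p (s * m) (σ l)).natAbs = (S.R p s l).natAbs := by
    intro l
    rw [S.R_mulM hsp]
    rcases hsp.1 l with h | h <;> simp [h]
  show ∑ l, (S.R p (s * m) l).natAbs = ∑ l, (S.R p s l).natAbs
  rw [← Equiv.sum_comp σ]
  exact Finset.sum_congr rfl (fun l _ => h1 l)

/-- `m` fixes all coordinates `> p`. -/
def act (_ : Sys π) (p : Fin 5) (m : E) : Prop := ∀ c, p < c → ∀ j, (π m) c j = if j = c then 1 else 0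

/-- conjugating a generator past an element of `M` -/
lemma push {m : E} (hm : m ∈ S.M) {p : Fin 5} (ha : S.act p m) {i j : Fin 5} (h : i ≠ j)
    (hi : i ≤ p) (hj : j ≤ p) {t : ℤ} (ht : t = 1 ∨ t = -1) :
    ∃ a b : Fin 5, ∃ t' : ℤ, a ≠ b ∧ a ≤ p ∧ b ≤ p ∧ (t' = 1 ∨ t' = -1) ∧
      m * S.x i j ^ t = S.x a b ^ t' * m := by
  obtain ⟨σ, ε, hsp, hc⟩ := S.conj m hm
  have hfix : ∀ c, p < c → σ c = c := by
    intro c hc'
    by_contra hne
    have h1 := ha c hc' (σ c)
    rw [hsp.2 c (σ c), if_pos rfl, if_neg hne] at h1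
    rcases hsp.1 c with h2 | h2 <;> omega
  have hle : ∀ c, c ≤ p → σ.symm c ≤ p := by
    intro c hc'
    by_contra hne
    push Not at hne
    have h1 := hfix _ hne
    rw [Equiv.apply_symm_apply] at h1
    rw [← h1] at hne
    exact absurd hc' (not_le.mpr hne)
  refine ⟨σ.symm i, σ.symm j, ε (σ.symm i) * ε (σ.symm j) * t, fun hh => h (σ.symm.injective hh),
    hle i hi, hle j hj, ?_, ?_⟩
  · rcases hsp.1 (σ.symm i) with h1 | h1 <;> rcases hsp.1 (σ.symm j) with h2 | h2 <;>
      rcases ht with h3 | h3 <;> simp [h1, h2, h3]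
  · have h1 := hc (σ.symm i) (σ.symm j) (fun hh => h (σ.symm.injective hh))
    rw [Equiv.apply_symm_apply, Equiv.apply_symm_apply] at h1
    have h2 : m * S.x i j ^ t * m⁻¹ = S.x (σ.symm i) (σ.symm j) ^ (ε (σ.symm i) * ε (σ.symm j) * t) := by
      rw [← conj_zpow, h1, ← zpow_mul]
    rw [← h2]; group

inductive T (p : Fin 5) : E → Prop
  | one : T p 1
  | mulM (s m : E) : T p s → m ∈ S.M → S.act p m → T p (s * m)
  | mulX (s : E) (i j : Fin 5) (t : ℤ) : T p s → i ≤ p → j ≤ p → i ≠ j → (t = 1 ∨ t = -1) →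
      S.N p s ≤ S.N p (s * S.x i j ^ t) → T p (s * S.x i j ^ t)

lemma act_w {i j p : Fin 5} (h : i ≠ j) (hi : i ≤ p) (hj : j ≤ p) :
    S.act p (S.x i j * (S.x j i)⁻¹ * S.x i j) := by
  intro c hc l
  have hci : c ≠ i := fun hh => by subst hh; exact absurd hi (not_le.mpr hc)
  have hcj : c ≠ j := fun hh => by subst hh; exact absurd hj (not_le.mpr hc)
  rw [map_mul, map_mul, map_inv, S.hx i j h, S.hx j i h.symm, el_inv,
    mul_el _ h, mul_el _ h.symm, mul_el _ h.symm, el_apply h, el_apply h, el_apply h]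
  have e1 : (l = c) = (c = l) := propext eq_comm
  simp [hci, hcj, e1]

lemma act_inv {p : Fin 5} {m : E} (h : S.act p m) : S.act p m⁻¹ := by
  intro c hc j
  have h1 : (π m * π m⁻¹) c j = (π m⁻¹) c j := by
    rw [Matrix.SpecialLinearGroup.coe_mul, Matrix.mul_apply, Finset.sum_eq_single c]
    · rw [h c hc c, if_pos rfl, one_mul]
    · intro b _ hb
      rw [h c hc b, if_neg hb, zero_mul]
    · simp
  rw [← h1, ← map_mul, mul_inv_cancel, map_one, Matrix.SpecialLinearGroup.coe_one,
    Matrix.one_apply]
  simp only [eq_comm]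

/-- the SL₂ step -/
lemma sl2 {p i j : Fin 5} (h : i ≠ j) (hi : i ≤ p) (hj : j ≤ p) {t : ℤ} (ht : t = 1 ∨ t = -1) :
    ∃ a b : Fin 5, ∃ t' : ℤ, ∃ m : E, a ≠ b ∧ a ≤ p ∧ b ≤ p ∧ (t' = 1 ∨ t' = -1) ∧ m ∈ S.M ∧
      S.act p m ∧ S.x i j ^ (-t) * S.x j i ^ t = S.x a b ^ t' * m := by
  have hw := S.w i j h
  have haw := S.act_w h hi hj
  rcases ht with rfl | rfl
  · -- x_ij⁻¹ x_ji = w⁻¹ x_ij
    have hw' := S.M.inv_mem hw
    have haw' := S.act_inv haw
    obtain ⟨a, b, t', h1, h2, h3, h4, h5⟩ := S.push hw' haw' h hi hj (Or.inl rfl : (1:ℤ) = 1 ∨ _)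
    refine ⟨a, b, t', _, h1, h2, h3, h4, hw', haw', ?_⟩
    rw [← h5]; group
  · obtain ⟨a, b, t', h1, h2, h3, h4, h5⟩ := S.push hw haw h hi hj (Or.inr rfl : (-1:ℤ) = 1 ∨ _)
    refine ⟨a, b, t', _, h1, h2, h3, h4, hw, haw, ?_⟩
    rw [← h5]; group


lemma N_pos (p : Fin 5) (s : E) : 1 ≤ S.N p s := by
  by_contra hc
  have h0 : ∑ l, ((π s) p l).natAbs = 0 := by
    have : S.N p s = 0 := by omega
    exact this
  have h1 : ∀ l, (π s) p l = 0 := by
    intro l
    have := (Finset.sum_eq_zero_iff.mp h0) l (Finset.mem_univ l)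
    exact Int.natAbs_eq_zero.mp this
  have h2 := Matrix.det_eq_zero_of_row_eq_zero (A := (π s : Matrix (Fin 5) (Fin 5) ℤ)) p h1
  rw [(π s).2] at h2
  exact one_ne_zero h2

lemma N_one (p : Fin 5) : S.N p 1 = 1 := by
  show ∑ l, ((π 1) p l).natAbs = 1
  rw [map_one, Finset.sum_eq_single p]
  · simp
  · intro b _ hb
    simp [Matrix.one_apply, hb.symm]
  · simp

theorem T_closed (p : Fin 5) : ∀ n : ℕ, ∀ s, S.T p s → S.N p s = n →
    ∀ (k l : Fin 5) (d : ℤ), k ≤ p → l ≤ p → k ≠ l → (d = 1 ∨ d = -1) →
      S.T p (s * S.x k l ^ d) := by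
  intro n
  induction n using Nat.strong_induction_on with
  | _ n ih =>
  intro s hs
  induction hs with
  | one =>
    intro hn k l d hk hl hkl hd
    refine T.mulX _ _ _ _ T.one hk hl hkl hd ?_
    rw [S.N_one]; exact S.N_pos _ _
  | mulM s m hs hm ha ihs =>
    intro hn k l d hk hl hkl hd
    rw [S.N_mulM hm] at hn
    obtain ⟨a, b, t', h1, h2, h3, h4, e⟩ := S.push hm ha hkl hk hl hd
    rw [mul_assoc, e, ← mul_assoc]
    exact T.mulM _ _ (ihs hn a b t' h2 h3 h1 h4) hm ha
  | mulX s i j t hs hi hj hij ht hle ihs =>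
    intro hn k l d hk hl hkl hd
    have hs' : ∀ (a b : Fin 5) (u : ℤ), a ≤ p → b ≤ p → a ≠ b → (u = 1 ∨ u = -1) →
        S.T p (s * S.x a b ^ u) := by
      rw [hn] at hle
      rcases hle.lt_or_eq with h | h
      · exact ih _ h s hs rfl
      · exact ihs h
    by_cases hdec : n ≤ S.N p (s * S.x i j ^ t * S.x k l ^ d)
    · refine T.mulX _ _ _ _ (hs' i j t hi hj hij ht) hk hl hkl hd ?_
      rw [hn]; exact hdec
    push Not at hdec
    have step : ∀ s', S.T p s' → S.N p s' < n → ∀ (a b : Fin 5) (u : ℤ), a ≤ p → b ≤ p → a ≠ b →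
        (u = 1 ∨ u = -1) → S.T p (s' * S.x a b ^ u) := fun s' h1 h2 => ih _ h2 s' h1 rfl
    have hN1 := S.N_mul hij p s t
    have hN2 := S.N_mul hkl p (s * S.x i j ^ t) d
    rw [hn] at hN1 hN2 hle
    have htd : t * d = 1 ∨ t * d = -1 := by
      rcases ht with rfl | rfl <;> rcases hd with rfl | rfl <;> simp
    have htd' : -(t * d) = 1 ∨ -(t * d) = -1 := by
      rcases htd with h | h <;> rw [h] <;> simp
    by_cases hlj : l = j
    · subst hlj
      by_cases hki : k = i
      · subst hki
        simp only [S.R_mul hij, hij, ↓reduceIte, add_zero] at hN2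
        have hx : t = -d := by
          rcases ht with rfl | rfl <;> rcases hd with rfl | rfl <;> omega
        subst hx
        have e : s * S.x k l ^ (-d) * S.x k l ^ d = s := by group
        rw [e]; exact hs
      · -- case (3)
        simp only [S.R_mul hij, hij, hkl, ↓reduceIte, add_zero] at hN2
        by_cases h0 : S.R p s i = 0
        · have e : s * S.x i l ^ t * S.x k l ^ d = s * S.x k l ^ d * S.x i l ^ t := by
            rw [mul_assoc, S.comm_z hij hkl hkl.symm hij t d, ← mul_assoc]
          rw [e]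
          refine step _ (hs' k l d hk hl hkl hd) ?_ i l t hi hl hij ht
          have h1 := S.N_mul hkl p s d
          rw [h0] at hN1 hN2 
          simp only [mul_zero, add_zero] at hN1 hN2
          omega
        · by_cases hle' : (S.R p s i).natAbs ≤ (S.R p s k).natAbs
          · have hik : i ≠ k := fun h => hki h.symm
            have e : s * S.x i l ^ t * S.x k l ^ d =
                s * S.x i k ^ (t * d) * S.x k l ^ d * S.x i k ^ (-(t * d)) := by
              have h1 := S.st_z hik hkl hij (t * d) d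
              have h2 : t * d * d = t := by
                rcases hd with rfl | rfl <;> ring
              rw [h2] at h1
              have h3 : S.x i l ^ t * S.x k l ^ d =
                  S.x i k ^ (t * d) * S.x k l ^ d * (S.x i k ^ (t * d))⁻¹ := by rw [h1]; group
              rw [mul_assoc s, h3]; group
            rw [e]
            have h1 := S.N_mul hik p s (t * d)
            have h2 := S.N_mul hkl p (s * S.x i k ^ (t * d)) d
            simp only [S.R_mul hik, hkl.symm, ↓reduceIte, add_zero] at h2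
            have g1 : S.N p (s * S.x i k ^ (t * d)) < n := by
              rcases ht with rfl | rfl <;> rcases hd with rfl | rfl <;> omega
            have g2 : S.N p (s * S.x i k ^ (t * d) * S.x k l ^ d) < n := by
              rcases ht with rfl | rfl <;> rcases hd with rfl | rfl <;> omega
            exact step _ (step _ (hs' i k _ hi hk hik htd) g1 k l d hk hl hkl hd) g2 i k _ hi hk hik htd'
          · have hki' : k ≠ i := hki
            have e : s * S.x i l ^ t * S.x k l ^ d =
                s * S.x k i ^ (t * d) * S.x i l ^ t * S.x k i ^ (-(t * d)) := by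
              have h1 := S.st_z hki' hij hkl (t * d) t
              have h2 : t * d * t = d := by
                rcases ht with rfl | rfl <;> ring
              rw [h2] at h1
              have h3 := S.comm_z hij hkl hkl.symm hij t d
              have h4 : S.x k l ^ d * S.x i l ^ t =
                  S.x k i ^ (t * d) * S.x i l ^ t * (S.x k i ^ (t * d))⁻¹ := by rw [h1]; group
              rw [mul_assoc s, h3, h4]; group
            rw [e]
            have h1 := S.N_mul hki' p s (t * d)
            have h2 := S.N_mul hij p (s * S.x k i ^ (t * d)) t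
            simp only [S.R_mul hki', hij.symm, ↓reduceIte, add_zero] at h2
            have g1 : S.N p (s * S.x k i ^ (t * d)) < n := by
              rcases ht with rfl | rfl <;> rcases hd with rfl | rfl <;> omega
            have g2 : S.N p (s * S.x k i ^ (t * d) * S.x i l ^ t) < n := by
              rcases ht with rfl | rfl <;> rcases hd with rfl | rfl <;> omega
            exact step _ (step _ (hs' k i _ hk hi hki' htd) g1 i l t hi hl hij ht) g2 k i _ hk hi hki' htd'
    · by_cases hkj : k = j
      · subst hkj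
        by_cases hil : l = i
        · subst hil
          -- case (2): z = x_ij^t, y = x_ji^d
          simp only [S.R_mul hij, hij, hkl, ↓reduceIte, add_zero] at hN2
          have hx : t = -d := by
            rcases ht with rfl | rfl <;> rcases hd with rfl | rfl <;> omega
          subst hx
          obtain ⟨a, b, t', m, h1, h2, h3, h4, h5, h6, h7⟩ := S.sl2 hij hi hj hd
          rw [mul_assoc, h7, ← mul_assoc]
          exact T.mulM _ _ (hs' a b t' h2 h3 h1 h4) h5 h6
        · -- case (4): z = x_ik^t, y = x_kl^d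
          have hil' : i ≠ l := fun h => hil h.symm
          have hki' : k ≠ i := hij.symm
          simp only [S.R_mul hij, hil, hlj, ↓reduceIte, add_zero] at hN2
          have h4a := S.N_mul hkl p s d
          by_cases hsgn : (S.R p s l + d * S.R p s k).natAbs + (S.R p s k).natAbs <
              (S.R p s k + t * S.R p s i).natAbs + (S.R p s l).natAbs
          · have hlk : l ≠ k := hlj
            have e : s * S.x i k ^ t * S.x k l ^ d =
                s * S.x k l ^ d * S.x i l ^ (t * d) * S.x i k ^ t := by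
              have h1 := S.st_z hij hkl hil' t d
              have h2 := S.comm_z hil' hkl hlk hil' (t * d) d
              rw [mul_assoc s, h1, h2]; group
            rw [e]
            have h5 := S.N_mul hil' p (s * S.x k l ^ d) (t * d)
            simp only [S.R_mul hkl, hil', ↓reduceIte, add_zero] at h5
            have g1 : S.N p (s * S.x k l ^ d) < n := by omega
            have g2 : S.N p (s * S.x k l ^ d * S.x i l ^ (t * d)) < n := by
              rcases ht with rfl | rfl <;> rcases hd with rfl | rfl <;> omega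
            exact step _ (step _ (hs' k l d hk hl hkl hd) g1 i l _ hi hl hil' htd) g2 i k t hi hk hij ht
          · have e : s * S.x i k ^ t * S.x k l ^ d =
                s * (S.x i k ^ t * S.x k i ^ (-t)) * S.x k l ^ d * S.x k i ^ t := by
              have h1 := S.comm_z hki' hkl hij hkl (-t) d
              have : s * (S.x i k ^ t * S.x k i ^ (-t)) * S.x k l ^ d * S.x k i ^ t =
                s * S.x i k ^ t * (S.x k i ^ (-t) * S.x k l ^ d) * S.x k i ^ t := by group
              rw [this, h1]; group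
            rw [e]
            have ht' : -t = 1 ∨ -t = -1 := by rcases ht with rfl | rfl <;> simp
            obtain ⟨a, b, t', m, h1, h2, h3, h4, h5, h6, h7⟩ := S.sl2 hij hi hj ht'
            rw [neg_neg] at h7
            have hT1 : S.T p (s * (S.x i k ^ t * S.x k i ^ (-t))) := by
              rw [h7, ← mul_assoc]
              exact T.mulM _ _ (hs' a b t' h2 h3 h1 h4) h5 h6
            have h8 := S.N_mul hki' p (s * S.x i k ^ t) (-t)
            have h9 := S.N_mul hkl p (s * S.x i k ^ t * S.x k i ^ (-t)) d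
            simp only [S.R_mul hki', S.R_mul hij, hij, hil, hlj, hki', ↓reduceIte, add_zero] at h8 h9
            rw [mul_assoc s] at h8 h9
            rw [hn] at *
            have g1 : S.N p (s * (S.x i k ^ t * S.x k i ^ (-t))) < n := by
              rcases ht with rfl | rfl <;> rcases hd with rfl | rfl <;> omega
            have g2 : S.N p (s * (S.x i k ^ t * S.x k i ^ (-t)) * S.x k l ^ d) < n := by
              rcases ht with rfl | rfl <;> rcases hd with rfl | rfl <;> omega
            exact step _ (step _ hT1 g1 k l d hk hl hkl hd) g2 k i t hk hi hki' ht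
      · by_cases hil : l = i
        · subst hil
          -- case (5): z = x_lj^t, y = x_kl^d
          have hjk : j ≠ k := fun h => hkj h.symm
          simp only [S.R_mul hij, hkj, hij, ↓reduceIte, add_zero] at hN2
          have h4a := S.N_mul hkl p s d
          by_cases hsgn : (S.R p s l + d * S.R p s k).natAbs +
              (S.R p s j - (t * d) * S.R p s k).natAbs <
              (S.R p s j + t * S.R p s l).natAbs + (S.R p s l).natAbs
          · -- zy = y x_kj^{-(td)} z
            have e : s * S.x l j ^ t * S.x k l ^ d =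
                s * S.x k l ^ d * S.x k j ^ (-(t * d)) * S.x l j ^ t := by
              have h1 := S.st_z hkl hij hkj d t
              have h2 : S.x k l ^ d * S.x k j ^ (-(t * d)) = S.x k j ^ (-(t * d)) * S.x k l ^ d :=
                S.comm_z hkl hkj hkl.symm hkj d _
              have h3 : s * S.x k l ^ d * S.x k j ^ (-(t * d)) * S.x l j ^ t =
                s * (S.x k l ^ d * S.x k j ^ (-(t * d))) * S.x l j ^ t := by group
              have h4 : S.x k j ^ (-(t * d)) * S.x k l ^ d * S.x l j ^ t =
                  S.x l j ^ t * S.x k l ^ d := by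
                rw [mul_assoc, h1, mul_comm d t]; group
              rw [h3, h2, mul_assoc s, mul_assoc s, h4]
            rw [e]
            have h5 := S.N_mul hkj p (s * S.x k l ^ d) (-(t * d))
            simp only [S.R_mul hkl, hkl, hij.symm, ↓reduceIte, add_zero] at h5
            have g1 : S.N p (s * S.x k l ^ d) < n := by
              rcases ht with rfl | rfl <;> rcases hd with rfl | rfl <;> omega
            have g2 : S.N p (s * S.x k l ^ d * S.x k j ^ (-(t * d))) < n := by
              rcases ht with rfl | rfl <;> rcases hd with rfl | rfl <;> omega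
            exact step _ (step _ (hs' k l d hk hl hkl hd) g1 k j _ hk hj hkj htd') g2 l j t hi hj hij ht
          · -- zy = v z v⁻¹ y, v = x_lk^d
            have hlk : l ≠ k := hkl.symm
            have e : s * S.x l j ^ t * S.x k l ^ d =
                s * S.x l k ^ d * S.x l j ^ t * (S.x l k ^ (-d) * S.x k l ^ d) := by
              have h1 := S.comm_z hlk hij hkl hij d t
              rw [mul_assoc s (S.x l k ^ d), h1]; group
            rw [e]
            obtain ⟨a, b, t', m, h1, h2, h3, h4, h5, h6, h7⟩ := S.sl2 hlk hl hk hd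
            rw [h7, ← mul_assoc]
            have h8 := S.N_mul hlk p s d
            have h9 := S.N_mul hij p (s * S.x l k ^ d) t
            simp only [S.R_mul hlk, hjk, hlk, ↓reduceIte, add_zero] at h8 h9
            have g1 : S.N p (s * S.x l k ^ d) < n := by
              rcases ht with rfl | rfl <;> rcases hd with rfl | rfl <;> omega
            have g2 : S.N p (s * S.x l k ^ d * S.x l j ^ t) < n := by
              rcases ht with rfl | rfl <;> rcases hd with rfl | rfl <;> omega
            refine T.mulM _ _ (step _ (step _ (hs' l k d hl hk hlk hd) g1 l j t hi hj hij ht) g2 a b t' h2 h3 h1 h4) h5 h6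
        · -- case (6)
          simp only [S.R_mul hij, hkj, hlj, ↓reduceIte, add_zero] at hN2
          have e : s * S.x i j ^ t * S.x k l ^ d = s * S.x k l ^ d * S.x i j ^ t := by
            rw [mul_assoc, S.comm_z hij hkl (fun h => hkj h.symm) (fun h => hil h.symm) t d,
              ← mul_assoc]
          rw [e]
          refine step _ (hs' k l d hk hl hkl hd) ?_ i j t hi hj hij ht
          have h1 := S.N_mul hkl p s d
          omega

end Sys

end Pool.Agent.H846R3.RF
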