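import Mathlib
import Pool.Agent.H846R3.RF.Peak

set_option autoImplicit false

namespace Pool.Agent.H846R3.RF

def rowFix (p : Fin 5) : Subgroup Gam where
  carrier := {g | ∀ j, g p j = if j = p then 1 else 0}
  one_mem' := by
    intro j
    rw [Matrix.SpecialLinearGroup.coe_one, Matrix.one_apply]
    simp only [eq_comm]
  mul_mem' := by
    intro g h hg hh j
    simp only [Set.mem_ofPred_eq] at hg hh
    rw [Matrix.SpecialLinearGroup.coe_mul, Matrix.mul_apply, Finset.sum_eq_single p]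
    · rw [hg p, hh j]; simp
    · intro b _ hb
      rw [hg b, if_neg hb, zero_mul]
    · simp
  inv_mem' := by
    intro g hg j
    simp only [Set.mem_ofPred_eq] at hg
    have h1 : (g * g⁻¹) p j = (g⁻¹) p j := by
      rw [Matrix.SpecialLinearGroup.coe_mul, Matrix.mul_apply, Finset.sum_eq_single p]
      · rw [hg p, if_pos rfl, one_mul]
      · intro b _ hb
        rw [hg b, if_neg hb, zero_mul]
      · simp
    rw [← h1, mul_inv_cancel, Matrix.SpecialLinearGroup.coe_one, Matrix.one_apply]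
    simp only [eq_comm]

def colFix (p : Fin 5) : Subgroup Gam where
  carrier := {g | ∀ j, g j p = if j = p then 1 else 0}
  one_mem' := by
    intro j
    rw [Matrix.SpecialLinearGroup.coe_one, Matrix.one_apply]
  mul_mem' := by
    intro g h hg hh j
    simp only [Set.mem_ofPred_eq] at hg hh
    rw [Matrix.SpecialLinearGroup.coe_mul, Matrix.mul_apply, Finset.sum_eq_single p]
    · rw [hg j, hh p]; simp
    · intro b _ hb
      rw [hh b, if_neg hb, mul_zero]
    · simp
  inv_mem' := by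
    intro g hg j
    simp only [Set.mem_ofPred_eq] at hg
    have h1 : (g⁻¹ * g) j p = (g⁻¹) j p := by
      rw [Matrix.SpecialLinearGroup.coe_mul, Matrix.mul_apply, Finset.sum_eq_single p]
      · rw [hg p, if_pos rfl, mul_one]
      · intro b _ hb
        rw [hg b, if_neg hb, mul_zero]
      · simp
    rw [← h1, inv_mul_cancel, Matrix.SpecialLinearGroup.coe_one, Matrix.one_apply]

lemma mem_rowFix {p : Fin 5} {g : Gam} : g ∈ rowFix p ↔ ∀ j, g p j = if j = p then 1 else 0 := Iff.rfl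

lemma mem_colFix {p : Fin 5} {g : Gam} : g ∈ colFix p ↔ ∀ j, g j p = if j = p then 1 else 0 := Iff.rfl

lemma el_mem_rowFix {i j c : Fin 5} (h : i ≠ j) (hc : c ≠ i) (t : ℤ) : el i j t ∈ rowFix c := by
  intro l
  rw [el_apply h]
  simp [hc, eq_comm]

lemma el_mem_colFix {i j c : Fin 5} (h : i ≠ j) (hc : c ≠ j) (t : ℤ) : el i j t ∈ colFix c := by
  intro l
  rw [el_apply h]
  simp [hc]

variable {E : Type*} [Group E] {π : E →* Gam}

namespace Sys

variable (S : Sys π)

def gen (n : ℕ) : Set E :=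
  {g | ∃ i j : Fin 5, i ≠ j ∧ i.val < n ∧ j.val < n ∧ g = S.x i j} ∪
    {m | m ∈ S.M ∧ ∀ c : Fin 5, n ≤ c.val → π m ∈ rowFix c}

def Sg (n : ℕ) : Subgroup E := Subgroup.closure (S.gen n)

def Q (p : Fin 5) : Subgroup E :=
  Subgroup.closure ({g | ∃ i j : Fin 5, i ≠ j ∧ i < p ∧ j ≤ p ∧ g = S.x i j} ∪
    {m | m ∈ S.M ∧ ∀ c : Fin 5, p ≤ c → π m ∈ rowFix c})

def U (p : Fin 5) : Subgroup E := Subgroup.closure {g | ∃ k : Fin 5, k < p ∧ g = S.x k p}

include S

lemma T_all (p : Fin 5) (s : E) (hs : s ∈ S.Sg (p.val + 1)) : S.T p s := by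
  induction hs using Subgroup.closure_induction_right with
  | one => exact T.one
  | mul_right s hs y hy ih =>
    rcases hy with ⟨i, j, hij, hi, hj, rfl⟩ | ⟨hm, hr⟩
    · have := S.T_closed p _ s ih rfl i j 1 (Fin.le_def.mpr (by omega)) (Fin.le_def.mpr (by omega))
        hij (Or.inl rfl)
      rwa [zpow_one] at this
    · exact T.mulM _ _ ih hm (fun c hc => hr c (by have := Fin.lt_def.mp hc; omega))
  | mul_inv_cancel s hs y hy ih =>
    rcases hy with ⟨i, j, hij, hi, hj, rfl⟩ | ⟨hm, hr⟩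
    · have := S.T_closed p _ s ih rfl i j (-1) (Fin.le_def.mpr (by omega)) (Fin.le_def.mpr (by omega))
        hij (Or.inr rfl)
      rwa [zpow_neg_one] at this
    · exact T.mulM _ _ ih (S.M.inv_mem hm)
        (S.act_inv (fun c hc => hr c (by have := Fin.lt_def.mp hc; omega)))

lemma Q_row (p : Fin 5) {q : E} (hq : q ∈ S.Q p) (c : Fin 5) (hc : p ≤ c) : π q ∈ rowFix c := by
  have h1 : S.Q p ≤ (rowFix c).comap π := by
    rw [Q, Subgroup.closure_le]
    rintro g (⟨i, j, hij, hi, hj, rfl⟩ | ⟨hm, hr⟩)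
    · show π (S.x i j) ∈ rowFix c
      rw [S.hx i j hij]
      exact el_mem_rowFix hij (fun h => by subst h; exact absurd hc (not_le.mpr hi)) _
    · exact hr c hc
  exact h1 hq

lemma act_mul {p : Fin 5} {a b : E} (ha : S.act p a) (hb : S.act p b) : S.act p (a * b) := by
  intro c hc
  rw [map_mul]
  exact (rowFix c).mul_mem (ha c hc) (hb c hc)

lemma main1 (p : Fin 5) (s : E) (hs : S.T p s) : S.N p s = 1 →
    ∃ m ∈ S.M, S.act p m ∧ s * m ∈ S.Q p := by
  induction hs with
  | one =>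
    intro _
    refine ⟨1, S.M.one_mem, ?_, ?_⟩
    · intro c _
      rw [map_one]
      exact (rowFix c).one_mem
    · rw [mul_one]; exact (S.Q p).one_mem
  | mulM s μ hs hμ ha ih =>
    intro hn
    rw [S.N_mulM hμ] at hn
    obtain ⟨m, hm, ham, hq⟩ := ih hn
    refine ⟨μ⁻¹ * m, S.M.mul_mem (S.M.inv_mem hμ) hm, S.act_mul (S.act_inv ha) ham, ?_⟩
    have : s * μ * (μ⁻¹ * m) = s * m := by group
    rw [this]; exact hq
  | mulX s i j t hs hi hj hij ht hle ih =>
    intro hn
    rw [hn] at hle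
    have hns : S.N p s = 1 := le_antisymm hle (S.N_pos _ _)
    obtain ⟨m, hm, ham, hq⟩ := ih hns
    refine ⟨m, hm, ham, ?_⟩
    obtain ⟨a, b, t', hab, ha, hb, ht', e⟩ := S.push (S.M.inv_mem hm) (S.act_inv ham) hij hi hj ht
    have e2 : s * S.x i j ^ t * m = (s * m) * S.x a b ^ t' := by
      have : s * S.x i j ^ t * m = s * m * (m⁻¹ * S.x i j ^ t) * m := by group
      rw [this, e]; group
    have h1 : S.N p (s * m * S.x a b ^ t') = 1 := by
      rw [← e2, S.N_mulM hm, hn]
    have h2 := S.N_mul hab p (s * m) t'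
    have hrow := S.Q_row p hq p le_rfl
    have h3 : ∀ l, S.R p (s * m) l = if l = p then 1 else 0 := hrow
    have h4 := S.N_pos p (s * m)
    have hap : a ≠ p := by
      rintro rfl
      have hb' : ¬ b = a := fun h => hab h.symm
      rw [h3 b, h3 a, if_neg hb', if_pos rfl, h1] at h2
      rcases ht' with rfl | rfl <;> simp at h2 <;> omega
    rw [e2]
    refine (S.Q p).mul_mem hq ((S.Q p).zpow_mem (Subgroup.subset_closure ?_) _)
    exact Or.inl ⟨a, b, hab, lt_of_le_of_ne ha hap, hb, rfl⟩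

lemma main2 (p : Fin 5) (s : E) (hs : s ∈ S.Sg (p.val + 1)) (h1 : π s = 1) : s ∈ S.Q p := by
  have hN : S.N p s = 1 := by
    have := S.N_one p
    unfold N at *
    rw [map_one] at this
    rw [h1]; exact this
  obtain ⟨m, hm, ham, hq⟩ := S.main1 p s (S.T_all p s hs) hN
  have h2 : π m ∈ rowFix p := by
    have := S.Q_row p hq p le_rfl
    rwa [map_mul, h1, one_mul] at this
  have h3 : m ∈ S.Q p := by
    refine Subgroup.subset_closure (Or.inr ⟨hm, ?_⟩)
    intro c hc
    rcases hc.eq_or_lt with h | h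
    · rw [← h]; exact h2
    · exact ham c h
  have h4 : s = s * m * m⁻¹ := by group
  rw [h4]
  exact (S.Q p).mul_mem hq ((S.Q p).inv_mem h3)

lemma conj_U (p : Fin 5) (g : E) (h : ∀ k, k < p → g * S.x k p * g⁻¹ ∈ S.U p) :
    ∀ u ∈ S.U p, g * u * g⁻¹ ∈ S.U p := by
  have h1 : S.U p ≤ (S.U p).comap (MulAut.conj g).toMonoidHom := by
    rw [U, Subgroup.closure_le]
    rintro _ ⟨k, hk, rfl⟩
    exact h k hk
  intro u hu
  exact h1 hu

lemma U_x {p k : Fin 5} (hk : k < p) (t : ℤ) : S.x k p ^ t ∈ S.U p :=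
  (S.U p).zpow_mem (Subgroup.subset_closure ⟨k, hk, rfl⟩) t

lemma conj_x (p a b : Fin 5) (hab : a ≠ b) (ha : a < p) (hb : b < p) (t : ℤ) :
    ∀ u ∈ S.U p, S.x a b ^ t * u * (S.x a b ^ t)⁻¹ ∈ S.U p := by
  apply S.conj_U
  intro k hk
  by_cases hkb : k = b
  · subst hkb
    have h1 := S.st_z hab hk.ne ha.ne t 1
    rw [zpow_one, mul_one] at h1
    rw [h1]
    have : S.x a p ^ t * S.x k p * S.x a k ^ t * (S.x a k ^ t)⁻¹ = S.x a p ^ t * S.x k p := by group
    rw [this]
    exact (S.U p).mul_mem (S.U_x ha t) (by simpa using S.U_x hk 1)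
  · have h1 := S.comm_z hab hk.ne (fun h => hkb h.symm) ha.ne t 1
    rw [zpow_one] at h1
    rw [h1]
    have : S.x k p * S.x a b ^ t * (S.x a b ^ t)⁻¹ = S.x k p := by group
    rw [this]
    simpa using S.U_x hk 1

lemma conj_m (p : Fin 5) {m : E} (hm : m ∈ S.M) (hr : ∀ c : Fin 5, p ≤ c → π m ∈ rowFix c) :
    ∀ u ∈ S.U p, m * u * m⁻¹ ∈ S.U p := by
  apply S.conj_U
  intro k hk
  obtain ⟨σ, ε, hsp, hc⟩ := S.conj m hm
  have hfix : ∀ c, p ≤ c → σ c = c := by
    intro c hc'
    by_contra hne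
    have h1 := hr c hc' (σ c)
    rw [hsp.2 c (σ c), if_pos rfl, if_neg hne] at h1
    rcases hsp.1 c with h2 | h2 <;> omega
  have hkp : σ.symm k < p := by
    by_contra hne
    push Not at hne
    have h1 := hfix _ hne
    rw [Equiv.apply_symm_apply] at h1
    rw [← h1] at hne
    exact absurd hk (not_lt.mpr hne)
  have h2 := hc (σ.symm k) p hkp.ne
  rw [Equiv.apply_symm_apply, hfix p le_rfl] at h2
  rw [h2]
  exact S.U_x hkp _

lemma conj_Sg (p : Fin 5) (s : E) (hs : s ∈ S.Sg p.val) : ∀ u ∈ S.U p, s * u * s⁻¹ ∈ S.U p := by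
  induction hs using Subgroup.closure_induction_right with
  | one => intro u hu; simpa using hu
  | mul_right s hs y hy ih =>
    intro u hu
    have e : s * y * u * (s * y)⁻¹ = s * (y * u * y⁻¹) * s⁻¹ := by group
    rw [e]
    apply ih
    rcases hy with ⟨i, j, hij, hi, hj, rfl⟩ | ⟨hm, hr⟩
    · have := S.conj_x p i j hij hi hj 1 u hu
      rwa [zpow_one] at this
    · exact S.conj_m p hm (fun c hc => hr c hc) u hu
  | mul_inv_cancel s hs y hy ih =>
    intro u hu
    have e : s * y⁻¹ * u * (s * y⁻¹)⁻¹ = s * (y⁻¹ * u * (y⁻¹)⁻¹) * s⁻¹ := by group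
    rw [e]
    apply ih
    rcases hy with ⟨i, j, hij, hi, hj, rfl⟩ | ⟨hm, hr⟩
    · have := S.conj_x p i j hij hi hj (-1) u hu
      rwa [zpow_neg_one] at this
    · refine S.conj_m p (S.M.inv_mem hm) (fun c hc => ?_) u hu
      rw [map_inv]
      exact (rowFix c).inv_mem (hr c hc)

lemma main3 (p : Fin 5) (q : E) (hq : q ∈ S.Q p) : ∃ u ∈ S.U p, ∃ s ∈ S.Sg p.val, q = u * s := by
  have key : ∀ u ∈ S.U p, ∀ s ∈ S.Sg p.val, ∀ (i j : Fin 5), i ≠ j → i < p → j ≤ p → ∀ t : ℤ,
      ∃ u' ∈ S.U p, ∃ s' ∈ S.Sg p.val, u * s * S.x i j ^ t = u' * s' := by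
    intro u hu s hs i j hij hi hj t
    rcases hj.eq_or_lt with h | h
    · subst h
      refine ⟨u * (s * S.x i j ^ t * s⁻¹), (S.U j).mul_mem hu (S.conj_Sg j s hs _ (S.U_x hi t)),
        s, hs, by group⟩
    · exact ⟨u, hu, s * S.x i j ^ t, (S.Sg p.val).mul_mem hs ((S.Sg p.val).zpow_mem
        (Subgroup.subset_closure (Or.inl ⟨i, j, hij, hi, h, rfl⟩)) t), by group⟩
  induction hq using Subgroup.closure_induction_right with
  | one => exact ⟨1, (S.U p).one_mem, 1, (S.Sg _).one_mem, by simp⟩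
  | mul_right q hq y hy ih =>
    obtain ⟨u, hu, s, hs, rfl⟩ := ih
    rcases hy with ⟨i, j, hij, hi, hj, rfl⟩ | ⟨hm, hr⟩
    · have := key u hu s hs i j hij hi hj 1
      rwa [zpow_one] at this
    · exact ⟨u, hu, s * y, (S.Sg _).mul_mem hs (Subgroup.subset_closure (Or.inr ⟨hm, fun c hc =>
        hr c hc⟩)), by group⟩
  | mul_inv_cancel q hq y hy ih =>
    obtain ⟨u, hu, s, hs, rfl⟩ := ih
    rcases hy with ⟨i, j, hij, hi, hj, rfl⟩ | ⟨hm, hr⟩
    · have := key u hu s hs i j hij hi hj (-1)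
      rwa [zpow_neg_one] at this
    · exact ⟨u, hu, s * y⁻¹, (S.Sg _).mul_mem hs ((S.Sg _).inv_mem (Subgroup.subset_closure
        (Or.inr ⟨hm, fun c hc => hr c hc⟩))), by group⟩

lemma Sg_col (p : Fin 5) (s : E) (hs : s ∈ S.Sg p.val) : π s ∈ colFix p := by
  have h1 : S.Sg p.val ≤ (colFix p).comap π := by
    rw [Sg, Subgroup.closure_le]
    rintro g (⟨i, j, hij, hi, hj, rfl⟩ | ⟨hm, hr⟩)
    · show π (S.x i j) ∈ colFix p
      rw [S.hx i j hij]
      exact el_mem_colFix hij (fun h => by subst h; exact absurd hj (lt_irrefl _)) _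
    · show π g ∈ colFix p
      obtain ⟨σ, ε, hsp, -⟩ := S.conj g hm
      have h2 := hr p le_rfl
      have h3 : σ p = p := by
        by_contra hne
        have h1 := h2 (σ p)
        rw [hsp.2 p (σ p), if_pos rfl, if_neg hne] at h1
        rcases hsp.1 p with h2 | h2 <;> omega
      intro c
      by_cases hc : c = p
      · subst hc
        exact h2 c
      · rw [hsp.2 c p, if_neg hc, if_neg]
        intro h
        apply hc
        apply σ.injective
        rw [h3, ← h]
  exact h1 hs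

lemma main4 (p : Fin 5) (u : E) (hu : u ∈ S.U p) (hc : π u ∈ colFix p) : u = 1 := by
  classical
  let y : Fin 5 → E := fun k => if k < p then S.x k p else 1
  have hcomm : ∀ a ∈ Set.range y, ∀ b ∈ Set.range y, a * b = b * a := by
    rintro _ ⟨a, rfl⟩ _ ⟨b, rfl⟩
    simp only [y]
    split_ifs with h1 h2
    · exact S.comm a p b p h1.ne h2.ne h2.ne' h1.ne
    all_goals simp
  letI : CommGroup (Subgroup.closure (Set.range y)) := Subgroup.closureCommGroupOfComm hcomm
  let yC : Fin 5 → Subgroup.closure (Set.range y) := fun k => ⟨y k, Subgroup.subset_closure ⟨k, rfl⟩⟩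
  have key : ∃ a : Fin 5 → ℤ, u = ((∏ k, yC k ^ a k : Subgroup.closure (Set.range y)) : E) ∧
      ∀ c l, (π u) c l = (if c = l then 1 else 0) + if l = p ∧ c < p then a c else 0 := by
    have step : ∀ (u : E) (k : Fin 5) (hk : k < p) (t : ℤ),
      (∃ a : Fin 5 → ℤ, u = ((∏ k, yC k ^ a k : Subgroup.closure (Set.range y)) : E) ∧
      ∀ c l, (π u) c l = (if c = l then 1 else 0) + if l = p ∧ c < p then a c else 0) → 
      (∃ a : Fin 5 → ℤ, u * S.x k p ^ t = ((∏ k, yC k ^ a k : Subgroup.closure (Set.range y)) : E) ∧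
      ∀ c l, (π (u * S.x k p ^ t)) c l =
        (if c = l then 1 else 0) + if l = p ∧ c < p then a c else 0) := by
      rintro u k hk t ⟨a, h1, h2⟩
      refine ⟨fun i => a i + if i = k then t else 0, ?_, ?_⟩
      · have e1 : (∏ i, yC i ^ (a i + if i = k then t else 0)) = (∏ i, yC i ^ a i) * yC k ^ t := by
          simp only [zpow_add, Finset.prod_mul_distrib]
          congr 1
          rw [Finset.prod_eq_single k]
          · simp
          · intro b _ hb
            rw [if_neg hb, zpow_zero]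
          · simp
        rw [e1, Subgroup.coe_mul, ← h1, Subgroup.coe_zpow]
        congr 2
        simp only [yC, y, if_pos hk]
      · intro c l
        rw [map_mul, S.pi_x hk.ne, mul_el _ hk.ne, h2 c l, h2 c k]
        have hkp : ¬ k = p := hk.ne
        by_cases hl : l = p
        · subst hl
          by_cases hck : c = k
          · subst hck
            simp [hk, hkp]
          · simp [hck, hkp]
        · simp [hl]
    clear hc
    induction hu using Subgroup.closure_induction_right with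
    | one => 
      refine ⟨fun _ => 0, by simp, ?_⟩
      intro c l
      rw [map_one, Matrix.SpecialLinearGroup.coe_one, Matrix.one_apply]
      simp
    | mul_right u hu y hy ih =>
      obtain ⟨k, hk, rfl⟩ := hy
      have := step u k hk 1 ih
      rwa [zpow_one] at this
    | mul_inv_cancel u hu y hy ih =>
      obtain ⟨k, hk, rfl⟩ := hy
      have := step u k hk (-1) ih
      rwa [zpow_neg_one] at this
  obtain ⟨a, h1, h2⟩ := key
  have h3 : ∀ c, c < p → a c = 0 := by
    intro c hcp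
    have h4 := hc c
    rw [h2 c p] at h4
    simp [hcp, hcp.ne] at h4
    exact h4
  rw [h1]
  have h5 : (∏ k, yC k ^ a k) = 1 := by
    apply Finset.prod_eq_one
    intro k _
    by_cases hk : k < p
    · rw [h3 k hk, zpow_zero]
    · have : yC k = 1 := by
        apply Subtype.ext
        simp only [yC, y, if_neg hk]
        rfl
      rw [this, one_zpow]
  rw [h5]; rfl

theorem ker_Sg : ∀ n : ℕ, n ≤ 5 → ∀ s ∈ S.Sg n, π s = 1 → s = 1 := by
  intro n
  induction n with
  | zero =>
    intro _ s hs _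
    have h1 : S.Sg 0 ≤ ⊥ := by
      rw [Sg, Subgroup.closure_le]
      rintro g (⟨i, j, hij, hi, hj, rfl⟩ | ⟨hm, hr⟩)
      · exact absurd hi (Nat.not_lt_zero _)
      · have : π g = 1 := by
          ext c j
          rw [hr c (Nat.zero_le _) j, Matrix.SpecialLinearGroup.coe_one, Matrix.one_apply]
          simp only [eq_comm]
        exact S.inj g hm this
    exact h1 hs
  | succ n ih =>
    intro hn s hs h1
    have h2 := S.main2 ⟨n, by omega⟩ s hs h1
    obtain ⟨u, hu, s', hs', rfl⟩ := S.main3 _ s h2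
    have h3 := S.Sg_col _ s' hs'
    have h4 : π u = (π s')⁻¹ := by
      rw [map_mul] at h1
      exact eq_inv_of_mul_eq_one_left h1
    have h5 : u = 1 := S.main4 _ u hu (by rw [h4]; exact (colFix _).inv_mem h3)
    subst h5
    rw [one_mul] at h1 ⊢
    exact ih (by omega) s' hs' h1

theorem ker_trivial (s : E)
    (hs : s ∈ Subgroup.closure ({g | ∃ i j : Fin 5, i ≠ j ∧ g = S.x i j} ∪ (S.M : Set E)))
    (h : π s = 1) : s = 1 := by
  refine S.ker_Sg 5 le_rfl s ?_ h
  refine (Subgroup.closure_mono ?_) hs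
  rintro g (⟨i, j, hij, rfl⟩ | hm)
  · exact Or.inl ⟨i, j, hij, i.isLt, j.isLt, rfl⟩
  · exact Or.inr ⟨hm, fun c hc => absurd c.isLt (not_lt.mpr hc)⟩

end Sys

end Pool.Agent.H846R3.RF
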