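import Mathlib
import Pool.Agent.H846R3.RF.Par

set_option autoImplicit false

namespace Pool.Agent.H846R3.RF

def EL : Subgroup Gam := Subgroup.closure {g | ∃ i j : Fin 5, i ≠ j ∧ g = el i j 1}

lemma el_mem_EL {i j : Fin 5} (h : i ≠ j) (t : ℤ) : el i j t ∈ EL := by
  rw [← el_one_zpow]
  exact EL.zpow_mem (Subgroup.subset_closure ⟨i, j, h, rfl⟩) t

/-- rows and columns `> p` are trivial -/
def Tr (p : Fin 5) (g : Gam) : Prop := ∀ c, p < c → g ∈ rowFix c ∧ g ∈ colFix c

lemma Tr.mul_el {p : Fin 5} {g : Gam} (hg : Tr p g) {i j : Fin 5} (h : i ≠ j) (hi : i ≤ p)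
    (hj : j ≤ p) (t : ℤ) : Tr p (g * el i j t) := by
  intro c hc
  obtain ⟨h1, h2⟩ := hg c hc
  exact ⟨(rowFix c).mul_mem h1 (el_mem_rowFix h (fun h => by subst h; exact absurd hi (not_le.mpr hc)) t),
    (colFix c).mul_mem h2 (el_mem_colFix h (fun h => by subst h; exact absurd hj (not_le.mpr hc)) t)⟩

lemma Tr.el_mul {p : Fin 5} {g : Gam} (hg : Tr p g) {i j : Fin 5} (h : i ≠ j) (hi : i ≤ p)
    (hj : j ≤ p) (t : ℤ) : Tr p (el i j t * g) := by
  intro c hc
  obtain ⟨h1, h2⟩ := hg c hc
  exact ⟨(rowFix c).mul_mem (el_mem_rowFix h (fun h => by subst h; exact absurd hi (not_le.mpr hc)) t) h1,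
    (colFix c).mul_mem (el_mem_colFix h (fun h => by subst h; exact absurd hj (not_le.mpr hc)) t) h2⟩

lemma red (p : Fin 5) (hp : p ≠ 0) : ∀ N : ℕ, ∀ g : Gam, Tr p g → nr g p = N →
    ∃ h ∈ EL, Tr p (g * h) ∧ g * h ∈ rowFix p := by
  intro N
  induction N using Nat.strong_induction_on with
  | _ N ih =>
  intro g hg hN
  have hle : ∀ a, g p a ≠ 0 → a ≤ p := by
    intro a ha
    by_contra hc
    push Not at hc
    have := (hg a hc).2 p
    rw [if_neg hc.ne] at this
    exact ha this
  by_cases h2 : ∃ i j, i ≠ j ∧ g p i ≠ 0 ∧ g p j ≠ 0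
  · -- reduce
    have h3 : ∃ i j, i ≠ j ∧ g p i ≠ 0 ∧ g p j ≠ 0 ∧ (g p i).natAbs ≤ (g p j).natAbs := by
      obtain ⟨i, j, h4, h5, h6⟩ := h2
      rcases le_total (g p i).natAbs (g p j).natAbs with h | h
      · exact ⟨i, j, h4, h5, h6, h⟩
      · exact ⟨j, i, h4.symm, h6, h5, h⟩
    obtain ⟨i, j, hij, hi0, hj0, hle'⟩ := h3
    have h4 : ∃ t : ℤ, (g p j + t * g p i).natAbs < (g p j).natAbs := by
      by_cases hs : (0 < g p i ∧ 0 < g p j) ∨ (g p i < 0 ∧ g p j < 0)
      · exact ⟨-1, by omega⟩
      · exact ⟨1, by omega⟩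
    obtain ⟨t, ht⟩ := h4
    have h5 := nr_mul_el g hij t p
    obtain ⟨h, hh, hT, hR⟩ := ih (nr (g * el i j t) p) (by omega) (g * el i j t)
      (hg.mul_el hij (hle i hi0) (hle j hj0) t) rfl
    exact ⟨el i j t * h, EL.mul_mem (el_mem_EL hij t) hh, by rwa [← mul_assoc], by rwa [← mul_assoc]⟩
  · push Not at h2
    have h3 : ∃ a, g p a ≠ 0 := by
      by_contra hc
      push Not at hc
      have h2 := Matrix.det_eq_zero_of_row_eq_zero (A := (g : Matrix (Fin 5) (Fin 5) ℤ)) p hc
      rw [g.2] at h2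
      exact one_ne_zero h2
    obtain ⟨a, ha⟩ := h3
    have hap := hle a ha
    have h4 : ∀ l, l ≠ a → g p l = 0 := fun l hl => h2 a l hl.symm ha
    have h5 : g p a * (g⁻¹) a p = 1 := by
      have : (g * g⁻¹) p p = 1 := by
        rw [mul_inv_cancel, Matrix.SpecialLinearGroup.coe_one, Matrix.one_apply_eq]
      rw [Matrix.SpecialLinearGroup.coe_mul, Matrix.mul_apply, Finset.sum_eq_single a] at this
      · exact this
      · intro b _ hb
        rw [h4 b hb, zero_mul]
      · simp
    have h6 : g p a = 1 ∨ g p a = -1 := Int.isUnit_iff.mp (IsUnit.of_mul_eq_one _ h5)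
    have h0p : (0 : Fin 5) ≤ p := Fin.zero_le p
    by_cases hpa : a = p
    · subst hpa
      rcases h6 with h6 | h6
      · refine ⟨1, EL.one_mem, by rwa [mul_one], ?_⟩
        intro l
        rw [mul_one]
        by_cases hl : l = a
        · rw [if_pos hl, hl, h6]
        · rw [if_neg hl, h4 l hl]
      · refine ⟨el a 0 1 * el 0 a (-2) * el a 0 1, EL.mul_mem (EL.mul_mem (el_mem_EL hp _)
          (el_mem_EL hp.symm _)) (el_mem_EL hp _), ?_, ?_⟩
        · rw [← mul_assoc, ← mul_assoc]
          exact ((hg.mul_el hp hap h0p _).mul_el hp.symm h0p hap _).mul_el hp hap h0p _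
        · intro l
          rw [← mul_assoc, ← mul_assoc, mul_el _ hp, mul_el _ hp.symm, mul_el _ hp, mul_el _ hp.symm,
            mul_el _ hp, mul_el _ hp, h6, h4 0 hp.symm]
          by_cases hl : l = a
          · subst hl
            simp [h6, hp]
          · rw [h4 l hl]
            by_cases hl0 : l = 0
            · subst hl0
              simp [hp, hp.symm]
            · simp [hl, hl0]
    · refine ⟨el a p (g p a) * el p a (-(g p a)), EL.mul_mem (el_mem_EL hpa _)
        (el_mem_EL (Ne.symm hpa) _), ?_, ?_⟩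
      · rw [← mul_assoc]
        exact (hg.mul_el hpa hap le_rfl _).mul_el (Ne.symm hpa) le_rfl hap _
      · intro l
        have hpp : g p p = 0 := h4 p (Ne.symm hpa)
        have hsq : g p a * g p a = 1 := by rcases h6 with h | h <;> rw [h] <;> norm_num
        rw [← mul_assoc, mul_el _ (Ne.symm hpa), mul_el _ hpa, mul_el _ hpa, hpp, hsq]
        by_cases hl : l = a
        · subst hl
          simp [hpa]
        · rw [h4 l hl]
          simp [hl]

lemma colred (p : Fin 5) (g : Gam) (hg : Tr p g) (hr : g ∈ rowFix p) : ∀ j : ℕ, j ≤ 5 →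
    ∃ h ∈ EL, Tr p (h * g) ∧ h * g ∈ rowFix p ∧ ∀ k : Fin 5, k.val < j → k ≠ p → (h * g) k p = 0 := by
  intro j
  induction j with
  | zero => 
    intro _
    exact ⟨1, EL.one_mem, by rwa [one_mul], by rwa [one_mul], fun k hk => absurd hk (Nat.not_lt_zero _)⟩
  | succ j ih =>
    intro hj
    obtain ⟨h, hh, h1, h2, h3⟩ := ih (by omega)
    by_cases hjp : (⟨j, by omega⟩ : Fin 5) < p
    · have hne := hjp.ne
      refine ⟨el ⟨j, by omega⟩ p (-((h * g) ⟨j, by omega⟩ p)) * h, EL.mul_mem (el_mem_EL hne _) hh,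
        ?_, ?_, ?_⟩
      · rw [mul_assoc]; exact h1.el_mul hne hjp.le le_rfl _
      · rw [mul_assoc]
        exact (rowFix p).mul_mem (el_mem_rowFix hne hne.symm _) h2
      · intro k hk hkp
        rw [mul_assoc, el_mul _ hne, h2 p, if_pos rfl, mul_one]
        by_cases hkj : k = ⟨j, by omega⟩
        · rw [if_pos hkj, hkj, add_neg_cancel]
        · rw [if_neg hkj, add_zero]
          exact h3 k (by
            have : k.val ≠ j := fun h => hkj (Fin.ext h)
            omega) hkp
    · refine ⟨h, hh, h1, h2, ?_⟩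
      intro k hk hkp
      by_cases hkj : k.val < j
      · exact h3 k hkj hkp
      · have hk' : p < k := by
          have : k = ⟨j, by omega⟩ := Fin.ext (by simp; omega)
          rw [this]
          push Not at hjp
          rw [← this] at hjp ⊢
          exact lt_of_le_of_ne hjp (Ne.symm hkp)
        have := (h1 k hk').1 p
        rw [if_neg hk'.ne] at this
        exact this

theorem gen_aux : ∀ n : ℕ, n + 1 ≤ 5 → ∀ g : Gam,
    (∀ c : Fin 5, n + 1 ≤ c.val → g ∈ rowFix c ∧ g ∈ colFix c) → g ∈ EL := by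
  intro n
  induction n with
  | zero =>
    intro _ g hg
    have h1 : (g : Matrix (Fin 5) (Fin 5) ℤ) =
        Matrix.diagonal (fun i => if i = 0 then g 0 0 else 1) := by
      ext i j
      rw [Matrix.diagonal_apply]
      by_cases hi : i = 0
      · by_cases hj : j = 0
        · subst hi hj; simp
        · have := (hg j (by have : j.val ≠ 0 := fun h => hj (Fin.ext h); omega)).2 i
          rw [this]
          have hij : ¬ i = j := fun h => hj (by rw [← h, hi])
          simp [hij]
      · have := (hg i (by have : i.val ≠ 0 := fun h => hi (Fin.ext h); omega)).1 j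
        rw [this]
        by_cases hij : i = j
        · subst hij; simp [hi]
        · simp [hij, Ne.symm hij]
    have h2 : g 0 0 = 1 := by
      have h3 := g.2
      rw [h1, Matrix.det_diagonal, Fin.prod_univ_succ] at h3
      simpa using h3
    have h3 : g = 1 := by
      ext i j
      rw [h1, h2]
      simp
    rw [h3]; exact EL.one_mem
  | succ n ih =>
    intro hn g hg
    have hp : (⟨n + 1, by omega⟩ : Fin 5) ≠ 0 := by
      intro h
      have := congrArg Fin.val h
      simp at this
    obtain ⟨h, hh, h1, h2⟩ := red ⟨n + 1, by omega⟩ hp _ g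
      (fun c hc => hg c (by have := Fin.lt_def.mp hc; simp at this; omega)) rfl
    obtain ⟨h', hh', h3, h4, h5⟩ := colred _ (g * h) h1 h2 5 le_rfl
    have h6 : h' * (g * h) ∈ EL := by
      apply ih (by omega)
      intro c hc
      by_cases hcp : c = ⟨n + 1, by omega⟩
      · rw [hcp]
        refine ⟨h4, ?_⟩
        intro k
        by_cases hk : k = ⟨n + 1, by omega⟩
        · rw [if_pos hk, hk]
          have := h4 ⟨n + 1, by omega⟩
          rw [if_pos rfl] at this
          exact this
        · rw [if_neg hk]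
          exact h5 k k.isLt hk
      · apply h3
        rw [Fin.lt_def]
        have : c.val ≠ n + 1 := fun h => hcp (Fin.ext h)
        simp
        omega
    have h7 : g = h'⁻¹ * (h' * (g * h)) * h⁻¹ := by group
    rw [h7]
    exact EL.mul_mem (EL.mul_mem (EL.inv_mem hh') h6) (EL.inv_mem hh)

theorem EL_top : EL = ⊤ := by
  rw [eq_top_iff]
  intro g _
  exact gen_aux 4 le_rfl g (fun c hc => absurd c.isLt (by omega))

end Pool.Agent.H846R3.RF
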