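import Mathlib
import Pool.Agent.H846R3.RF.Gen

set_option autoImplicit false

namespace Pool.Agent.H846R3.RF

open Module

section idem
variable {V : Type*} [AddCommGroup V] [Module ℚ V] [FiniteDimensional ℚ V]

lemma idem (hV : finrank ℚ V = 5) (P : Module.End ℚ V) (hP : IsIdempotentElem P) :
    ∃ n : ℕ, n ≤ 5 ∧ LinearMap.trace ℚ V P = n ∧ (n = 0 → P = 0) ∧ (n = 5 → P = 1) ∧
      n = finrank ℚ (LinearMap.range P) := by
  have h1 : ∀ Q : Module.End ℚ V, IsIdempotentElem Q →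
      LinearMap.trace ℚ V Q = (finrank ℚ (LinearMap.range Q) : ℚ) := fun Q hQ =>
    (LinearMap.IsIdempotentElem.isProj_range Q hQ).trace
  have h0 : ∀ Q : Module.End ℚ V, IsIdempotentElem Q → LinearMap.trace ℚ V Q = 0 → Q = 0 :=
    fun Q hQ h => LinearMap.IsIdempotentElem.eq_zero_of_trace_eq_zero hQ h
  refine ⟨finrank ℚ (LinearMap.range P), ?_, h1 P hP, ?_, ?_, rfl⟩
  · rw [← hV]; exact Submodule.finrank_le _
  · intro h
    apply h0 P hP
    rw [h1 P hP, h]; simp
  · intro h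
    have h2 : IsIdempotentElem (1 - P) := hP.one_sub
    have h3 : LinearMap.trace ℚ V (1 - P) = 0 := by
      rw [map_sub, h1 P hP, h, LinearMap.trace_one, hV]; norm_num
    have h4 := h0 _ h2 h3
    exact (sub_eq_zero.mp h4).symm

/-- half projector -/
noncomputable def hf (e : ℚ) (A : Module.End ℚ V) : Module.End ℚ V := (1 / 2 : ℚ) • (1 + e • A)

lemma hf_idem {e : ℚ} (he : e * e = 1) {A : Module.End ℚ V} (hA : A * A = 1) :
    IsIdempotentElem (hf e A) := by
  unfold IsIdempotentElem hf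
  have : (1 + e • A) * (1 + e • A) = (2 : ℚ) • (1 + e • A) := by
    rcases mul_self_eq_one_iff.mp he with rfl | rfl <;>
      simp only [mul_add, add_mul, mul_one, one_mul, smul_mul_assoc, mul_smul_comm, hA] <;> module
  rw [smul_mul_assoc, mul_smul_comm, this, smul_smul, smul_smul]
  norm_num

lemma hf_comm (e e' : ℚ) {A B : Module.End ℚ V} (h : A * B = B * A) :
    Commute (hf e A) (hf e' B) := by
  unfold hf
  have h' : Commute A B := h
  exact (((Commute.one_left _).add_left (((Commute.one_right _).add_right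
    (h'.smul_right e')).smul_left e)).smul_right _).smul_left _

lemma four (hV : finrank ℚ V = 5) (A B C D : Module.End ℚ V) (hA : A * A = 1) (hB : B * B = 1)
    (hC : C * C = 1) (hD : D * D = 1) (hAB : A * B = B * A) (hAC : A * C = C * A)
    (hAD : A * D = D * A) (hBC : B * C = C * B) (hBD : B * D = D * B) (hCD : C * D = D * C)
    (e1 e2 e3 e4 : ℚ) (h1 : e1 * e1 = 1) (h2 : e2 * e2 = 1) (h3 : e3 * e3 = 1) (h4 : e4 * e4 = 1) :
    ∃ n : ℕ, n ≤ 5 ∧ (16 * n : ℚ) = 5 + e1 * LinearMap.trace ℚ V A + e2 * LinearMap.trace ℚ V B +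
      e3 * LinearMap.trace ℚ V C + e4 * LinearMap.trace ℚ V D
      + e1 * e2 * LinearMap.trace ℚ V (A * B) + e1 * e3 * LinearMap.trace ℚ V (A * C)
      + e1 * e4 * LinearMap.trace ℚ V (A * D) + e2 * e3 * LinearMap.trace ℚ V (B * C)
      + e2 * e4 * LinearMap.trace ℚ V (B * D) + e3 * e4 * LinearMap.trace ℚ V (C * D)
      + e1 * e2 * e3 * LinearMap.trace ℚ V (A * B * C)
      + e1 * e2 * e4 * LinearMap.trace ℚ V (A * B * D)
      + e1 * e3 * e4 * LinearMap.trace ℚ V (A * C * D)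
      + e2 * e3 * e4 * LinearMap.trace ℚ V (B * C * D)
      + e1 * e2 * e3 * e4 * LinearMap.trace ℚ V (A * B * C * D) := by
  have hP : IsIdempotentElem (hf e1 A * hf e2 B * (hf e3 C * hf e4 D)) := by
    apply IsIdempotentElem.mul_of_commute
    · exact (((hf_comm _ _ hAC).mul_right (hf_comm _ _ hAD)).mul_left
        ((hf_comm _ _ hBC).mul_right (hf_comm _ _ hBD)))
    · exact IsIdempotentElem.mul_of_commute (hf_comm _ _ hAB) (hf_idem h1 hA) (hf_idem h2 hB)
    · exact IsIdempotentElem.mul_of_commute (hf_comm _ _ hCD) (hf_idem h3 hC) (hf_idem h4 hD)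
  obtain ⟨n, hn, ht, -⟩ := idem hV _ hP
  refine ⟨n, hn, ?_⟩
  rw [← ht]
  simp only [hf, smul_mul_assoc, mul_smul_comm, add_mul, mul_add, one_mul, mul_one, map_add,
    map_smul, smul_eq_mul, LinearMap.trace_one, hV, smul_add, mul_assoc]
  push_cast
  ring

lemma one_half (hV : finrank ℚ V = 5) (A : Module.End ℚ V) (hA : A * A = 1) :
    ∃ n : ℕ, n ≤ 5 ∧ (2 * n : ℚ) = 5 + LinearMap.trace ℚ V A ∧ (n = 5 → A = 1) := by
  obtain ⟨n, hn, ht, -, h5, -⟩ := idem hV _ (hf_idem (e := 1) (by norm_num) hA)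
  refine ⟨n, hn, ?_, ?_⟩
  · rw [← ht]
    simp only [hf, map_add, map_smul, smul_eq_mul, LinearMap.trace_one, hV]
    push_cast
    ring
  · intro h
    have h6 := h5 h
    unfold hf at h6
    have h7 : (2 : ℚ) • ((1 / 2 : ℚ) • (1 + (1 : ℚ) • A)) = (2 : ℚ) • (1 : Module.End ℚ V) := by
      rw [h6]
    rw [smul_smul, show (2 : ℚ) * (1 / 2) = 1 by norm_num, one_smul, one_smul, two_smul] at h7
    exact add_left_cancel h7

end idem

end Pool.Agent.H846R3.RF
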