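import Mathlib
import Pool.Agent.H846R3.RF.Gen

set_option autoImplicit false

namespace Pool.Agent.H846R3.RF

lemma sq_of_pm {a : ℤ} (h : a = 1 ∨ a = -1) : a * a = 1 := by
  rcases h with h | h <;> rw [h] <;> norm_num

lemma IsSP.mul {g h : Gam} {σ τ : Equiv.Perm (Fin 5)} {ε δ : Fin 5 → ℤ} (hg : IsSP g σ ε)
    (hh : IsSP h τ δ) : IsSP (g * h) (τ * σ) (fun i => ε i * δ (σ i)) := by
  refine ⟨?_, ?_⟩
  · intro i
    rcases hg.1 i with h1 | h1 <;> rcases hh.1 (σ i) with h2 | h2 <;> simp [h1, h2]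
  · intro i j
    rw [Matrix.SpecialLinearGroup.coe_mul, Matrix.mul_apply, Finset.sum_eq_single (σ i)]
    · rw [hg.2, hh.2, if_pos rfl, Equiv.Perm.mul_apply]
      split_ifs <;> simp
    · intro b _ hb
      rw [hg.2, if_neg hb, zero_mul]
    · simp

lemma IsSP.one : IsSP 1 1 (fun _ => 1) := by
  refine ⟨fun _ => Or.inl rfl, ?_⟩
  intro i j
  rw [Matrix.SpecialLinearGroup.coe_one, Matrix.one_apply, Equiv.Perm.one_apply]
  simp only [eq_comm]

lemma IsSP.inv {g : Gam} {σ : Equiv.Perm (Fin 5)} {ε : Fin 5 → ℤ} (hg : IsSP g σ ε) :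
    IsSP g⁻¹ σ⁻¹ (fun i => ε (σ⁻¹ i)) := by
  refine ⟨fun i => hg.1 _, ?_⟩
  intro i j
  have h1 : (g * g⁻¹) (σ⁻¹ i) j = ε (σ⁻¹ i) * (g⁻¹) i j := by
    rw [Matrix.SpecialLinearGroup.coe_mul, Matrix.mul_apply, Finset.sum_eq_single i]
    · rw [hg.2, if_pos (by simp)]
    · intro b _ hb
      rw [hg.2, if_neg (by simpa using hb), zero_mul]
    · simp
  rw [mul_inv_cancel, Matrix.SpecialLinearGroup.coe_one, Matrix.one_apply] at h1
  have h2 := sq_of_pm (hg.1 (σ⁻¹ i))
  have h3 : (g⁻¹) i j = ε (σ⁻¹ i) * (if σ⁻¹ i = j then 1 else 0) := by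
    rw [h1, ← mul_assoc, h2, one_mul]
  rw [h3]
  by_cases h : j = σ⁻¹ i
  · rw [if_pos h, if_pos h.symm, mul_one]
  · rw [if_neg h, if_neg (fun hh => h hh.symm), mul_zero]

lemma IsSP.ext {g h : Gam} {σ : Equiv.Perm (Fin 5)} {ε : Fin 5 → ℤ} (hg : IsSP g σ ε)
    (hh : IsSP h σ ε) : g = h := by
  ext i j
  rw [hg.2, hh.2]

lemma IsSP.ext' {g h : Gam} {σ τ : Equiv.Perm (Fin 5)} {ε δ : Fin 5 → ℤ} (hg : IsSP g σ ε)
    (hh : IsSP h τ δ) (h1 : ∀ i, σ i = τ i) (h2 : ∀ i, ε i = δ i) : g = h := by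
  ext i j
  rw [hg.2, hh.2, h1, h2]

/-- the group of signed permutation matrices of determinant one -/
def M0 : Subgroup Gam where
  carrier := {g | ∃ σ ε, IsSP g σ ε}
  one_mem' := ⟨_, _, IsSP.one⟩
  mul_mem' := by
    rintro g h ⟨σ, ε, hg⟩ ⟨τ, δ, hh⟩
    exact ⟨_, _, hg.mul hh⟩
  inv_mem' := by
    rintro g ⟨σ, ε, hg⟩
    exact ⟨_, _, hg.inv⟩

lemma mem_M0 {g : Gam} : g ∈ M0 ↔ ∃ σ ε, IsSP g σ ε := Iff.rfl

instance : Finite M0 := by
  classical
  let f : M0 → Equiv.Perm (Fin 5) × (Fin 5 → Bool) := fun g =>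
    ((mem_M0.mp g.2).choose, fun i => decide ((mem_M0.mp g.2).choose_spec.choose i = 1))
  apply Finite.of_injective f
  intro g h hgh
  have hg := (mem_M0.mp g.2).choose_spec.choose_spec
  have hh := (mem_M0.mp h.2).choose_spec.choose_spec
  have h1 : (mem_M0.mp g.2).choose = (mem_M0.mp h.2).choose := congrArg Prod.fst hgh
  have h2 : ∀ i, decide ((mem_M0.mp g.2).choose_spec.choose i = 1) =
      decide ((mem_M0.mp h.2).choose_spec.choose i = 1) := fun i =>
    congrFun (congrArg Prod.snd hgh) i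
  apply Subtype.ext
  refine IsSP.ext' hg hh (fun i => by rw [h1]) ?_
  intro i
  have h3 := h2 i
  rw [decide_eq_decide] at h3
  rcases hg.1 i with h4 | h4 <;> rcases hh.1 i with h5 | h5
  · rw [h4, h5]
  · rw [h5] at h3; have := h3.mp h4; norm_num at this
  · rw [h4] at h3; have := h3.mpr h5; norm_num at this
  · rw [h4, h5]

lemma exists_sp (σ : Equiv.Perm (Fin 5)) (ε : Fin 5 → ℤ) (hε : ∀ i, ε i = 1 ∨ ε i = -1)
    (h : (∏ i, ε i) * (Equiv.Perm.sign σ : ℤ) = 1) : ∃ g : Gam, IsSP g σ ε := by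
  let A : Matrix (Fin 5) (Fin 5) ℤ := Matrix.diagonal ε * σ.permMatrix ℤ
  have hA : A.det = 1 := by
    rw [Matrix.det_mul, Matrix.det_diagonal, Matrix.det_permutation, Int.cast_id, h]
  refine ⟨⟨A, hA⟩, hε, ?_⟩
  intro i j
  show (Matrix.diagonal ε * σ.permMatrix ℤ) i j = _
  rw [Matrix.diagonal_mul, Equiv.Perm.permMatrix, PEquiv.toMatrix_apply]
  simp only [Equiv.toPEquiv_apply, Option.mem_def, Option.some.injEq]
  by_cases hj : j = σ i
  · rw [if_pos hj, if_pos hj.symm, mul_one]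
  · rw [if_neg hj, if_neg (fun h => hj h.symm), mul_zero]

/-- conjugation of elementary matrices -/
lemma IsSP.mul_el {g : Gam} {σ : Equiv.Perm (Fin 5)} {ε : Fin 5 → ℤ} (hg : IsSP g σ ε)
    {i j : Fin 5} (h : i ≠ j) (c : ℤ) :
    g * el (σ i) (σ j) c = el i j (ε i * ε j * c) * g := by
  ext p l
  rw [RF.mul_el _ (fun hh => h (σ.injective hh)), RF.el_mul _ h]
  congr 1
  rw [hg.2, hg.2]
  by_cases hp : p = i
  · subst hp
    rw [if_pos rfl, if_pos rfl]
    by_cases hl : l = σ j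
    · rw [if_pos hl, if_pos hl]
      have := sq_of_pm (hg.1 j)
      calc c * ε p = c * ε p * 1 := by ring
        _ = c * ε p * (ε j * ε j) := by rw [this]
        _ = _ := by ring
    · rw [if_neg hl, if_neg hl, mul_zero]
  · rw [if_neg hp, if_neg (fun hh => hp (σ.injective hh).symm)]
    simp

/-- the product homomorphism and the group of sign vectors of product one -/
def prodHom : (Fin 5 → ℤˣ) →* ℤˣ where
  toFun d := ∏ i, d i
  map_one' := by simp
  map_mul' a b := by simp [Finset.prod_mul_distrib]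

def DD : Subgroup (Fin 5 → ℤˣ) := prodHom.ker

lemma DD_det (d : DD) : (Matrix.diagonal (fun i => ((d.1 i : ℤˣ) : ℤ))).det = 1 := by
  rw [Matrix.det_diagonal]
  have h1 : ∏ i, d.1 i = 1 := MonoidHom.mem_ker.mp d.2
  have h2 := congrArg (fun u : ℤˣ => (u : ℤ)) h1
  simpa using h2

def dg : DD →* Gam where
  toFun d := ⟨Matrix.diagonal (fun i => ((d.1 i : ℤˣ) : ℤ)), DD_det d⟩
  map_one' := by
    ext i j
    simp [Matrix.diagonal_apply, Matrix.one_apply]
  map_mul' a b := by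
    apply Subtype.ext
    show Matrix.diagonal (fun i => (((a * b).1 i : ℤˣ) : ℤ)) =
      Matrix.diagonal (fun i => ((a.1 i : ℤˣ) : ℤ)) * Matrix.diagonal (fun i => ((b.1 i : ℤˣ) : ℤ))
    rw [Matrix.diagonal_mul_diagonal]
    congr 1

lemma dg_isSP (d : DD) : IsSP (dg d) 1 (fun i => (d.1 i : ℤ)) := by
  refine ⟨fun i => ?_, ?_⟩
  · exact Int.isUnit_iff.mp (d.1 i).isUnit
  · intro i j
    show Matrix.diagonal (fun i => ((d.1 i : ℤˣ) : ℤ)) i j = _
    rw [Matrix.diagonal_apply, Equiv.Perm.one_apply]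
    simp only [eq_comm]

/-- `-1` off `m` -/
def f (m : Fin 5) : DD := ⟨fun i => if i = m then 1 else -1, by
  show ∏ i, (if i = m then (1 : ℤˣ) else -1) = 1
  revert m; decide⟩

def perm (σ : Equiv.Perm (Fin 5)) (d : DD) : DD := ⟨fun i => d.1 (σ i), by
  show ∏ i, d.1 (σ i) = 1
  rw [Equiv.prod_comp σ (fun i => d.1 i)]
  exact d.2⟩

lemma IsSP.mul_dg {g : Gam} {σ : Equiv.Perm (Fin 5)} {ε : Fin 5 → ℤ} (hg : IsSP g σ ε) (d : DD) :
    g * dg d = dg (perm σ d) * g := by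
  refine IsSP.ext' (hg.mul (dg_isSP d)) ((dg_isSP _).mul hg) ?_ ?_
  · intro i; simp
  · intro i
    simp only [Equiv.Perm.one_apply]
    rw [mul_comm]; rfl

lemma f_sq (m : Fin 5) : f m * f m = 1 := by
  apply Subtype.ext
  funext i
  show (if i = m then (1 : ℤˣ) else -1) * (if i = m then (1 : ℤˣ) else -1) = 1
  split_ifs <;> simp

lemma DD_sq (d : DD) : d * d = 1 := by
  apply Subtype.ext
  funext i
  exact Int.units_mul_self _

lemma DD_comm (a b : DD) : a * b = b * a := by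
  apply Subtype.ext
  exact mul_comm _ _

lemma f012 : f 0 * f 1 * f 2 = f 3 * f 4 := by
  apply Subtype.ext; funext i; revert i; decide
lemma f013 : f 0 * f 1 * f 3 = f 2 * f 4 := by
  apply Subtype.ext; funext i; revert i; decide
lemma f023 : f 0 * f 2 * f 3 = f 1 * f 4 := by
  apply Subtype.ext; funext i; revert i; decide
lemma f123 : f 1 * f 2 * f 3 = f 0 * f 4 := by
  apply Subtype.ext; funext i; revert i; decide
lemma f0123 : f 0 * f 1 * f 2 * f 3 = f 4 := by
  apply Subtype.ext; funext i; revert i; decide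

lemma perm_f (σ : Equiv.Perm (Fin 5)) (m : Fin 5) : perm σ (f (σ m)) = f m := by
  apply Subtype.ext; funext i
  show (if σ i = σ m then (1 : ℤˣ) else -1) = if i = m then 1 else -1
  simp only [EmbeddingLike.apply_eq_iff_eq]

lemma perm_mul (σ : Equiv.Perm (Fin 5)) (a b : DD) : perm σ (a * b) = perm σ a * perm σ b := rfl

/-- every permutation is realised -/
lemma exists_sp' (σ : Equiv.Perm (Fin 5)) : ∃ g ε, IsSP g σ ε := by
  obtain ⟨g, hg⟩ := exists_sp σ (fun i => if i = 0 then (Equiv.Perm.sign σ : ℤ) else 1) (by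
    intro i
    show (if i = 0 then (Equiv.Perm.sign σ : ℤ) else 1) = 1 ∨ _
    split_ifs
    · exact Int.isUnit_iff.mp (Equiv.Perm.sign σ).isUnit
    · exact Or.inl rfl) (by
    rw [Finset.prod_ite_eq' Finset.univ (0 : Fin 5)]
    simp only [Finset.mem_univ, if_true]
    rw [← Units.val_mul, Int.units_mul_self]; rfl)
  exact ⟨g, _, hg⟩

lemma exists_perm2 (l m : Fin 5) (h : l ≠ m) : ∃ σ : Equiv.Perm (Fin 5), σ 0 = l ∧ σ 1 = m := by
  have h1 : Equiv.swap 0 l 1 ≠ l := by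
    intro hh
    have : Equiv.swap (0 : Fin 5) l 1 = Equiv.swap 0 l 0 := by rw [hh, Equiv.swap_apply_left]
    exact absurd ((Equiv.swap (0 : Fin 5) l).injective this) (by decide)
  refine ⟨Equiv.swap (Equiv.swap 0 l 1) m * Equiv.swap 0 l, ?_, ?_⟩
  · rw [Equiv.Perm.mul_apply, Equiv.swap_apply_left, Equiv.swap_apply_of_ne_of_ne h1.symm h]
  · rw [Equiv.Perm.mul_apply, Equiv.swap_apply_left]

lemma w_isSP {i j : Fin 5} (h : i ≠ j) : IsSP (el i j 1 * el j i (-1) * el i j 1)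
    (Equiv.swap i j) (fun k => if k = j then -1 else 1) := by
  refine ⟨?_, ?_⟩
  · intro k
    show (if k = j then (-1 : ℤ) else 1) = 1 ∨ (if k = j then (-1 : ℤ) else 1) = -1
    split_ifs <;> simp
  · intro p l
    rw [mul_el _ h, mul_el _ h.symm, mul_el _ h.symm, el_apply h, el_apply h, el_apply h]
    by_cases hpi : p = i
    · subst hpi
      rw [Equiv.swap_apply_left]
      by_cases hlj : l = j
      · subst hlj; simp [h, h.symm]
      · by_cases hli : l = p
        · subst hli; simp [h, h.symm]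
        · have : ¬ p = l := fun hh => hli hh.symm
          simp [h, h.symm, hlj, hli, this]
    · by_cases hpj : p = j
      · subst hpj
        rw [Equiv.swap_apply_right]
        by_cases hli : l = i
        · subst hli; simp [h, h.symm]
        · by_cases hlj : l = p
          · subst hlj; simp [h, h.symm]
          · have : ¬ p = l := fun hh => hlj hh.symm
            simp [h, h.symm, hlj, hli, this]
      · rw [Equiv.swap_apply_of_ne_of_ne hpi hpj]
        simp [hpi, hpj, eq_comm]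

/-- the four cycle -/
lemma exists_cycle {i j k l m : Fin 5} (hij : i ≠ j) (hik : i ≠ k) (hil : i ≠ l) (hjk : j ≠ k)
    (hjl : j ≠ l) (hkl : k ≠ l) (him : m ≠ i) (hjm : m ≠ j) (hkm : m ≠ k) (hlm : m ≠ l) :
    ∃ (g : Gam) (σ : Equiv.Perm (Fin 5)), IsSP g σ (fun p => if p = m then -1 else 1) ∧
      σ i = j ∧ σ j = k ∧ σ k = l ∧ σ l = i ∧ σ m = m := by
  obtain ⟨g, hg⟩ := exists_sp (Equiv.swap i j * Equiv.swap j k * Equiv.swap k l)
    (fun p => if p = m then -1 else 1) (by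
      intro p
      show (if p = m then (-1 : ℤ) else 1) = 1 ∨ (if p = m then (-1 : ℤ) else 1) = -1
      split_ifs <;> simp) (by
      rw [Finset.prod_ite_eq' Finset.univ m]
      simp [Equiv.Perm.sign_swap hij, Equiv.Perm.sign_swap hjk, Equiv.Perm.sign_swap hkl])
  refine ⟨g, _, hg, ?_, ?_, ?_, ?_, ?_⟩
  · rw [Equiv.Perm.mul_apply, Equiv.Perm.mul_apply, Equiv.swap_apply_of_ne_of_ne hik hil,
      Equiv.swap_apply_of_ne_of_ne hij hik, Equiv.swap_apply_left]
  · rw [Equiv.Perm.mul_apply, Equiv.Perm.mul_apply, Equiv.swap_apply_of_ne_of_ne hjk hjl,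
      Equiv.swap_apply_left, Equiv.swap_apply_of_ne_of_ne hik.symm hjk.symm]
  · rw [Equiv.Perm.mul_apply, Equiv.Perm.mul_apply, Equiv.swap_apply_left,
      Equiv.swap_apply_of_ne_of_ne hjl.symm hkl.symm, Equiv.swap_apply_of_ne_of_ne hil.symm hjl.symm]
  · rw [Equiv.Perm.mul_apply, Equiv.Perm.mul_apply, Equiv.swap_apply_right, Equiv.swap_apply_right,
      Equiv.swap_apply_right]
  · rw [Equiv.Perm.mul_apply, Equiv.Perm.mul_apply, Equiv.swap_apply_of_ne_of_ne hkm hlm,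
      Equiv.swap_apply_of_ne_of_ne hjm hkm, Equiv.swap_apply_of_ne_of_ne him hjm]

end Pool.Agent.H846R3.RF
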