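import Mathlib
import Pool.Agent.H846R3.RF.SP
import Pool.Agent.H846R3.RF.Dich

set_option autoImplicit false

namespace Pool.Agent.H846R3.RF

open Module

lemma el_cm {i j k l : Fin 5} (h1 : i ≠ j) (h2 : k ≠ l) (h3 : j ≠ k) (h4 : i ≠ l) (a b : ℤ) :
    el i j a * el k l b = el k l b * el i j a := by
  ext p q
  rw [mul_el _ h2, mul_el _ h1, el_apply h1, el_apply h1, el_apply h2, el_apply h2]
  by_cases hq : q = l
  · subst hq
    by_cases hqj : q = j
    · subst hqj
      by_cases hpk : p = k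
      · subst hpk
        by_cases hpi : p = i
        · subst hpi; simp [h1, h2, h3, h4]; ring
        · simp [h1, h2, h3, h4, hpi, Ne.symm h3]
      · by_cases hpi : p = i
        · subst hpi; simp [h1, h2, h3, h4, hpk, h3.symm]
        · simp [hpi, hpk]
    · simp [hqj, h3, h3.symm, h4]
  · simp [hq]
    by_cases hqj : q = j
    · subst hqj
      simp [h3, h4]
    · simp [hqj]

lemma el_st {i j k : Fin 5} (h1 : i ≠ j) (h2 : j ≠ k) (h3 : i ≠ k) (a b : ℤ) :
    el i j a * el j k b = el i k (a * b) * el j k b * el i j a := by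
  ext p q
  rw [mul_el _ h2, mul_el _ h1, mul_el _ h2, mul_el _ h2, el_apply h1, el_apply h1, el_apply h3,
    el_apply h3, el_apply h3]
  by_cases hqk : q = k
  · subst hqk
    by_cases hpi : p = i
    · subst hpi
      simp [h1, h2, h3, h1.symm, h2.symm, h3.symm]; ring
    · by_cases hpj : p = j
      · subst hpj; simp [h1, h2, h3, h1.symm, h2.symm, h3.symm]
      · simp [hpi, hpj, h1, h2, h3, h1.symm, h2.symm, h3.symm]
  · by_cases hqj : q = j
    · subst hqj
      by_cases hpi : p = i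
      · subst hpi
        simp [h1, h2, h3, h1.symm, h2.symm, h3.symm]
      · simp [hpi, h1, h2, h3, h1.symm, h2.symm, h3.symm]
    · simp [hqj, hqk]

variable {V : Type*} [AddCommGroup V] [Module ℚ V] [FiniteDimensional ℚ V]

section
variable (ρ : Gam →* Module.End ℚ V)

lemma tconj {h g g' : Gam} (e : h * g = g' * h) :
    LinearMap.trace ℚ V (ρ g') = LinearMap.trace ℚ V (ρ g) := by
  have h1 : g' = h * (g * h⁻¹) := by rw [← mul_assoc, e]; group
  rw [h1, map_mul, LinearMap.trace_mul_comm, ← map_mul]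
  congr 2
  group

lemma tF (m : Fin 5) : LinearMap.trace ℚ V (ρ (dg (f m))) = LinearMap.trace ℚ V (ρ (dg (f 0))) := by
  obtain ⟨g, ε, hg⟩ := exists_sp' (Equiv.swap 0 m)
  have h1 := hg.mul_dg (f m)
  have h2 := perm_f (Equiv.swap 0 m) 0
  rw [Equiv.swap_apply_left] at h2
  rw [h2] at h1
  exact (tconj ρ h1).symm

lemma tFF (l m : Fin 5) (h : l ≠ m) : LinearMap.trace ℚ V (ρ (dg (f l * f m))) =
    LinearMap.trace ℚ V (ρ (dg (f 0 * f 1))) := by
  obtain ⟨σ, h0, h1⟩ := exists_perm2 l m h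
  obtain ⟨g, ε, hg⟩ := exists_sp' σ
  have h2 := hg.mul_dg (f l * f m)
  rw [perm_mul, ← h0, ← h1, perm_f, perm_f, h0, h1] at h2
  exact (tconj ρ h2).symm

/-- trace of products of elementary matrices in the same row -/
lemma tel {j k : Fin 5} (hj : j ≠ 0) (hk : k ≠ 0) (hjk : j ≠ k) (y : Gam)
    (hy : y * el j k 1 = el j k 1 * y) :
    LinearMap.trace ℚ V (ρ (y * (el 0 k 1 * el 0 j 1))) = LinearMap.trace ℚ V (ρ (y * el 0 j 1)) := by
  have h1 := el_st (Ne.symm hj) hjk (Ne.symm hk) 1 1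
  have h2 := el_cm (Ne.symm hk) hjk (Ne.symm hk |> fun _ => hjk.symm) (Ne.symm hk) 1 1
  have h3 : el j k 1 * (y * (el 0 k 1 * el 0 j 1)) = (y * el 0 j 1) * el j k 1 := by
    rw [← mul_assoc, ← hy, mul_assoc, mul_assoc, ← mul_assoc (el j k 1), ← h2, h1, mul_one]
  exact (tconj ρ h3).symm

end

end Pool.Agent.H846R3.RF
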