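import Mathlib
import Pool.Agent.H846R3.RF.Dich2

set_option autoImplicit false

namespace Pool.Agent.H846R3.RF

open Module

variable {V : Type*} [AddCommGroup V] [Module ℚ V] [FiniteDimensional ℚ V]

lemma ker_all (ρ : Gam →* Module.End ℚ V) (h : ρ (el 0 1 1) = 1) : ∀ g, ρ g = 1 := by
  have st : ∀ {i j k : Fin 5}, i ≠ j → j ≠ k → i ≠ k →
      el i k 1 = el i j 1 * el j k 1 * (el i j 1)⁻¹ * (el j k 1)⁻¹ := by
    intro i j k h1 h2 h3
    have := el_st h1 h2 h3 1 1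
    rw [this, mul_one]; group
  have c1 : ∀ a b : Gam, ρ a = 1 → ρ (a * b * a⁻¹ * b⁻¹) = 1 := by
    intro a b ha
    have ha' : ρ a⁻¹ = 1 := by
      have : ρ (a * a⁻¹) = 1 := by rw [mul_inv_cancel, map_one]
      rwa [map_mul, ha, one_mul] at this
    rw [map_mul, map_mul, map_mul, ha, ha', one_mul, mul_one, ← map_mul, mul_inv_cancel, map_one]
  have c2 : ∀ a b : Gam, ρ b = 1 → ρ (a * b * a⁻¹ * b⁻¹) = 1 := by
    intro a b hb
    have hb' : ρ b⁻¹ = 1 := by
      have : ρ (b * b⁻¹) = 1 := by rw [mul_inv_cancel, map_one]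
      rwa [map_mul, hb, one_mul] at this
    rw [map_mul, map_mul, map_mul, hb, hb', mul_one, mul_one, ← map_mul, mul_inv_cancel, map_one]
  have h0 : ∀ k, k ≠ 0 → ρ (el 0 k 1) = 1 := by
    intro k hk
    by_cases hk1 : k = 1
    · rw [hk1]; exact h
    · rw [st (show (0 : Fin 5) ≠ 1 by decide) (Ne.symm hk1) (Ne.symm hk)]
      exact c1 _ _ h
  have h1 : ∀ i k, i ≠ k → k ≠ 0 → ρ (el i k 1) = 1 := by
    intro i k hik hk
    by_cases hi : i = 0
    · rw [hi]; exact h0 k hk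
    · rw [st hi (Ne.symm hk) hik]
      exact c2 _ _ (h0 k hk)
  have h2 : ∀ i k, i ≠ k → ρ (el i k 1) = 1 := by
    intro i k hik
    by_cases hk : k = 0
    · obtain ⟨j, hj1, hj2⟩ : ∃ j : Fin 5, i ≠ j ∧ j ≠ k := by
        revert i k; decide
      rw [st hj1 hj2 hik]
      exact c1 _ _ (h1 i j hj1 (by rw [← hk]; exact hj2))
    · exact h1 i k hik hk
  intro g
  have hg : g ∈ EL := by rw [EL_top]; trivial
  have h3 : EL ≤ MonoidHom.ker ρ := by
    rw [EL, Subgroup.closure_le]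
    rintro _ ⟨i, j, hij, rfl⟩
    exact h2 i j hij
  exact h3 hg

theorem caseA (hV : finrank ℚ V = 5) (ρ : Gam →* Module.End ℚ V)
    (hF : ∀ m, ρ (dg (f m)) = 1) : ∀ g, ρ g = 1 := by
  -- all elementary matrices square to one
  have hsq : ∀ j : Fin 5, (0 : Fin 5) ≠ j → ρ (el 0 j 1) * ρ (el 0 j 1) = 1 := by
    intro j hj
    have h1 := (dg_isSP (f 0)).mul_el hj 1
    have e0 : ((f 0).1 0 : ℤ) = 1 := rfl
    have ej : ((f 0).1 j : ℤ) = -1 := by
      show (((if j = 0 then (1 : ℤˣ) else -1) : ℤˣ) : ℤ) = -1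
      rw [if_neg (Ne.symm hj)]; rfl
    simp only [Equiv.Perm.one_apply] at h1
    rw [e0, ej] at h1
    have h2 := congrArg ρ h1
    rw [map_mul, map_mul, hF, one_mul, mul_one] at h2
    have h3 : (1 : ℤ) * -1 * 1 = -1 := by norm_num
    rw [h3] at h2
    nth_rewrite 2 [h2]
    rw [← map_mul, ← el_add, add_neg_cancel, el_zero, map_one]
  have cm : ∀ j k : Fin 5, (0 : Fin 5) ≠ j → (0 : Fin 5) ≠ k →
      el 0 j 1 * el 0 k 1 = el 0 k 1 * el 0 j 1 := fun j k hj hk => el_cm hj hk hj.symm hk 1 1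
  have d1 : (0 : Fin 5) ≠ 1 := by decide
  have d2 : (0 : Fin 5) ≠ 2 := by decide
  have d3 : (0 : Fin 5) ≠ 3 := by decide
  have d4 : (0 : Fin 5) ≠ 4 := by decide
  have cr : ∀ p j k : Fin 5, (0 : Fin 5) ≠ p → (0 : Fin 5) ≠ k → j ≠ k → p ≠ j →
      el 0 p 1 * el j k 1 = el j k 1 * el 0 p 1 := fun p j k h1 h2 h3 h4 =>
    el_cm h1 h3 h4 h2 1 1
  -- pairs
  have pr : ∀ k j : Fin 5, (0 : Fin 5) ≠ k → (0 : Fin 5) ≠ j → j ≠ k →
      LinearMap.trace ℚ V (ρ (el 0 k 1 * el 0 j 1)) = LinearMap.trace ℚ V (ρ (el 0 j 1)) := by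
    intro k j hk hj hjk
    have := tel ρ hj.symm hk.symm hjk 1 (by simp)
    rwa [one_mul, one_mul] at this
  set t := LinearMap.trace ℚ V (ρ (el 0 1 1)) with ht
  have ts : ∀ j : Fin 5, (0 : Fin 5) ≠ j → LinearMap.trace ℚ V (ρ (el 0 j 1)) = t := by
    intro j hj
    by_cases h1 : j = 1
    · rw [h1]
    · rw [← pr 1 j d1 hj h1, cm 1 j d1 hj, pr j 1 hj d1 (Ne.symm h1)]
  have tp : ∀ k j : Fin 5, (0 : Fin 5) ≠ k → (0 : Fin 5) ≠ j → j ≠ k →
      LinearMap.trace ℚ V (ρ (el 0 k 1 * el 0 j 1)) = t := fun k j hk hj hjk => by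
    rw [pr k j hk hj hjk, ts j hj]
  have tt : ∀ p k j : Fin 5, (0 : Fin 5) ≠ p → (0 : Fin 5) ≠ k → (0 : Fin 5) ≠ j → j ≠ k → p ≠ j →
      LinearMap.trace ℚ V (ρ (el 0 p 1 * (el 0 k 1 * el 0 j 1))) = t := by
    intro p k j hp hk hj hjk hpj
    rw [tel ρ hj.symm hk.symm hjk (el 0 p 1) (cr p j k hp hk hjk hpj), tp p j hp hj hpj.symm]
  have tq : LinearMap.trace ℚ V (ρ (el 0 1 1 * el 0 2 1 * (el 0 3 1 * el 0 4 1))) = t := by
    rw [tel ρ d4.symm d3.symm (by decide) (el 0 1 1 * el 0 2 1) (by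
      rw [mul_assoc, cr 2 4 3 d2 d3 (by decide) (by decide), ← mul_assoc,
        cr 1 4 3 d1 d3 (by decide) (by decide), mul_assoc])]
    rw [mul_assoc]
    exact tt 1 2 4 d1 d2 d4 (by decide) (by decide)
  have cmρ : ∀ j k : Fin 5, (0 : Fin 5) ≠ j → (0 : Fin 5) ≠ k →
      ρ (el 0 j 1) * ρ (el 0 k 1) = ρ (el 0 k 1) * ρ (el 0 j 1) := by
    intro j k hj hk
    rw [← map_mul, cm j k hj hk, map_mul]
  obtain ⟨n, hn, h16⟩ := four hV (ρ (el 0 1 1)) (ρ (el 0 2 1)) (ρ (el 0 3 1)) (ρ (el 0 4 1))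
    (hsq 1 d1) (hsq 2 d2) (hsq 3 d3) (hsq 4 d4) (cmρ _ _ d1 d2) (cmρ _ _ d1 d3) (cmρ _ _ d1 d4)
    (cmρ _ _ d2 d3) (cmρ _ _ d2 d4) (cmρ _ _ d3 d4) 1 1 1 1 (by norm_num) (by norm_num)
    (by norm_num) (by norm_num)
  obtain ⟨r, hr, h2, h5⟩ := one_half hV (ρ (el 0 1 1)) (hsq 1 d1)
  simp only [← map_mul] at h16
  rw [mul_assoc (el 0 1 1) (el 0 2 1) (el 0 3 1), mul_assoc (el 0 1 1) (el 0 2 1) (el 0 4 1),
    mul_assoc (el 0 1 1) (el 0 3 1) (el 0 4 1), mul_assoc (el 0 2 1) (el 0 3 1) (el 0 4 1),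
    ] at h16
  have eq4 : el 0 1 1 * (el 0 2 1 * el 0 3 1) * el 0 4 1 =
      el 0 1 1 * el 0 2 1 * (el 0 3 1 * el 0 4 1) := by group
  rw [eq4, tq, tt 1 2 3 d1 d2 d3 (by decide) (by decide), tt 1 2 4 d1 d2 d4 (by decide) (by decide),
    tt 1 3 4 d1 d3 d4 (by decide) (by decide), tt 2 3 4 d2 d3 d4 (by decide) (by decide),
    tp 1 2 d1 d2 (by decide), tp 1 3 d1 d3 (by decide), tp 1 4 d1 d4 (by decide),
    tp 2 3 d2 d3 (by decide), tp 2 4 d2 d4 (by decide), tp 3 4 d3 d4 (by decide),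
    ts 2 d2, ts 3 d3, ts 4 d4, ← ht] at h16
  rw [← ht] at h2
  have h6 : (16 * (n : ℤ)) = 30 * r - 70 := by
    have : (16 * (n : ℚ)) = 30 * r - 70 := by linarith
    exact_mod_cast this
  have hr5 : r = 5 := by omega
  exact ker_all ρ (h5 hr5)

theorem dich (hV : finrank ℚ V = 5) (ρ : Gam →* Module.End ℚ V) :
    (∀ g, ρ g = 1) ∨
    ((∀ l m, l ≠ m → (1 + ρ (dg (f l))) * (1 + ρ (dg (f m))) = 0) ∧
     (∀ (m : Fin 5) (g : Gam), g * dg (f m) = dg (f m) * g → g * g * (g * g) = 1 →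
        ρ (g * g) * (1 + ρ (dg (f m))) = 1 + ρ (dg (f m)))) := by
  have sq : ∀ m, ρ (dg (f m)) * ρ (dg (f m)) = 1 := by
    intro m
    rw [← map_mul, ← map_mul, f_sq, map_one, map_one]
  have cm : ∀ l m, ρ (dg (f l)) * ρ (dg (f m)) = ρ (dg (f m)) * ρ (dg (f l)) := by
    intro l m
    rw [← map_mul, ← map_mul, DD_comm, map_mul, map_mul]
  set b := LinearMap.trace ℚ V (ρ (dg (f 0))) with hb
  set a := LinearMap.trace ℚ V (ρ (dg (f 0 * f 1))) with ha
  have tb : ∀ m, LinearMap.trace ℚ V (ρ (dg (f m))) = b := tF ρ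
  have ta : ∀ l m, l ≠ m → LinearMap.trace ℚ V (ρ (dg (f l)) * ρ (dg (f m))) = a := by
    intro l m h
    rw [← map_mul, ← map_mul]
    exact tFF ρ l m h
  have t3 : ∀ i j k l m, f i * f j * f k = f l * f m → l ≠ m →
      LinearMap.trace ℚ V (ρ (dg (f i)) * ρ (dg (f j)) * ρ (dg (f k))) = a := by
    intro i j k l m h hlm
    rw [← map_mul, ← map_mul, ← map_mul, ← map_mul, h]
    exact tFF ρ l m hlm
  have t4 : LinearMap.trace ℚ V (ρ (dg (f 0)) * ρ (dg (f 1)) * ρ (dg (f 2)) * ρ (dg (f 3))) = b := by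
    rw [← map_mul, ← map_mul, ← map_mul, ← map_mul, ← map_mul, ← map_mul, f0123]
    exact tb 4
  have F : ∀ e1 e2 e3 e4 : ℚ, e1 * e1 = 1 → e2 * e2 = 1 → e3 * e3 = 1 → e4 * e4 = 1 →
      ∃ n : ℕ, n ≤ 5 ∧ (16 * n : ℚ) = 5 + e1 * b + e2 * b + e3 * b + e4 * b
      + e1 * e2 * a + e1 * e3 * a + e1 * e4 * a + e2 * e3 * a + e2 * e4 * a + e3 * e4 * a
      + e1 * e2 * e3 * a + e1 * e2 * e4 * a + e1 * e3 * e4 * a + e2 * e3 * e4 * a
      + e1 * e2 * e3 * e4 * b := by
    intro e1 e2 e3 e4 h1 h2 h3 h4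
    obtain ⟨n, hn, h⟩ := four hV _ _ _ _ (sq 0) (sq 1) (sq 2) (sq 3) (cm _ _) (cm _ _) (cm _ _)
      (cm _ _) (cm _ _) (cm _ _) e1 e2 e3 e4 h1 h2 h3 h4
    rw [t4, t3 0 1 2 3 4 f012 (by decide), t3 0 1 3 2 4 f013 (by decide),
      t3 0 2 3 1 4 f023 (by decide), t3 1 2 3 0 4 f123 (by decide),
      ta 0 1 (by decide), ta 0 2 (by decide), ta 0 3 (by decide), ta 1 2 (by decide),
      ta 1 3 (by decide), ta 2 3 (by decide), tb 0, tb 1, tb 2, tb 3] at h
    exact ⟨n, hn, h⟩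
  obtain ⟨n0, -, h0⟩ := F 1 1 1 1 (by norm_num) (by norm_num) (by norm_num) (by norm_num)
  obtain ⟨n1, -, h1⟩ := F (-1) (-1) (-1) (-1) (by norm_num) (by norm_num) (by norm_num) (by norm_num)
  obtain ⟨n2, -, h2⟩ := F (-1) (-1) 1 1 (by norm_num) (by norm_num) (by norm_num) (by norm_num)
  have hs : n0 + 5 * n1 + 10 * n2 = 5 := by
    have : (n0 : ℚ) + 5 * n1 + 10 * n2 = 5 := by linarith
    exact_mod_cast this
  have hn2 : n2 = 0 := by omega
  rcases (show (n1 = 0 ∧ n0 = 5) ∨ (n1 = 1 ∧ n0 = 0) by omega) with ⟨g1, g0⟩ | ⟨g1, g0⟩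
  · left
    rw [g0] at h0; rw [g1] at h1; rw [hn2] at h2
    push_cast at h0 h1 h2
    have hb5 : b = 5 := by linarith
    apply caseA hV
    intro m
    obtain ⟨r, hr, h3, h5⟩ := one_half hV _ (sq m)
    apply h5
    rw [tb m, hb5] at h3
    have : (2 * (r : ℚ)) = 10 := by linarith
    have h4 : 2 * r = 10 := by exact_mod_cast this
    omega
  · right
    rw [g0] at h0; rw [g1] at h1; rw [hn2] at h2
    push_cast at h0 h1 h2
    have hb3 : b = -3 := by linarith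
    have ha1 : a = 1 := by linarith
    have e1 : (1 : ℚ) * 1 = 1 := by norm_num
    constructor
    · intro l m hlm
      have hP : IsIdempotentElem (hf 1 (ρ (dg (f l))) * hf 1 (ρ (dg (f m)))) :=
        IsIdempotentElem.mul_of_commute (hf_comm _ _ (cm l m)) (hf_idem e1 (sq l)) (hf_idem e1 (sq m))
      obtain ⟨n, hn, ht, hz, -⟩ := idem hV _ hP
      have h3 : (4 * n : ℚ) = 5 + b + b + a := by
        rw [← ht]
        simp only [hf, smul_mul_assoc, mul_smul_comm, add_mul, mul_add, one_mul, mul_one, map_add,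
          map_smul, smul_eq_mul, LinearMap.trace_one, hV, smul_add, tb l, tb m, ta l m hlm]
        push_cast
        ring
      rw [hb3, ha1] at h3
      have h4 : n = 0 := by
        have : (4 * n : ℚ) = 0 := by linarith
        have : 4 * n = 0 := by exact_mod_cast this
        omega
      have h5 := hz h4
      unfold hf at h5
      rw [smul_mul_assoc, mul_smul_comm, one_smul, one_smul, smul_smul] at h5
      exact (smul_eq_zero.mp h5).resolve_left (by norm_num)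
    · intro m g hg hg4
      have hX := hf_idem e1 (sq m)
      obtain ⟨n, hn, ht, -, -, hrk⟩ := idem hV _ hX
      have h3 : n = 1 := by
        have h4 : (2 * n : ℚ) = 5 + b := by
          rw [← ht]
          simp only [hf, map_add, map_smul, smul_eq_mul, LinearMap.trace_one, hV, tb m]
          push_cast
          ring
        rw [hb3] at h4
        have : (2 * n : ℚ) = 2 := by linarith
        have : 2 * n = 2 := by exact_mod_cast this
        omega
      rw [h3] at hrk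
      set X := hf 1 (ρ (dg (f m))) with hXdef
      have hcom : ρ g * X = X * ρ g := by
        have hc : Commute (ρ g) (ρ (dg (f m))) := by
          show ρ g * ρ (dg (f m)) = ρ (dg (f m)) * ρ g
          rw [← map_mul, hg, map_mul]
        rw [hXdef]
        unfold hf
        exact (((Commute.one_right _).add_right (hc.smul_right 1)).smul_right _)
      obtain ⟨v, hv0, hv⟩ := finrank_eq_one_iff'.mp hrk.symm
      have hXv : X v.1 = v.1 := by
        obtain ⟨u, hu⟩ := v.2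
        rw [← hu]
        exact LinearMap.congr_fun hX u
      have hGv : ρ g v.1 ∈ LinearMap.range X := ⟨ρ g v.1, by
        have := LinearMap.congr_fun hcom v.1
        simp only [Module.End.mul_apply] at this
        rw [← this, hXv]⟩
      obtain ⟨c, hc⟩ := hv ⟨_, hGv⟩
      have hc' : ρ g v.1 = c • v.1 := (congrArg Subtype.val hc).symm
      have hG2 : ρ (g * g) v.1 = (c * c) • v.1 := by
        rw [map_mul, Module.End.mul_apply, hc', map_smul, hc', smul_smul]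
      have hG4 : ρ (g * g * (g * g)) v.1 = (c * c * (c * c)) • v.1 := by
        rw [map_mul, Module.End.mul_apply, hG2, map_smul, hG2, smul_smul]
      have hv0' : v.1 ≠ 0 := fun h => hv0 (Subtype.ext h)
      have hc4 : c * c * (c * c) = 1 := by
        rw [hg4, map_one, Module.End.one_apply] at hG4
        have : (c * c * (c * c) - 1) • v.1 = 0 := by
          rw [sub_smul, one_smul, ← hG4, sub_self]
        rcases smul_eq_zero.mp this with h | h
        · linarith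
        · exact absurd h hv0'
      have hc2 : c * c = 1 := by
        have h5 : 0 ≤ c * c := mul_self_nonneg c
        nlinarith
      rw [hc2, one_smul] at hG2
      have hfin : ρ (g * g) * X = X := by
        apply LinearMap.ext
        intro u
        obtain ⟨e, he⟩ := hv ⟨X u, ⟨u, rfl⟩⟩
        have he' : X u = e • v.1 := (congrArg Subtype.val he).symm
        rw [Module.End.mul_apply, he', map_smul, hG2]
      rw [hXdef] at hfin
      unfold hf at hfin
      rw [mul_smul_comm, one_smul] at hfin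
      exact (smul_right_injective _ (by norm_num : (1 / 2 : ℚ) ≠ 0)) hfin

end Pool.Agent.H846R3.RF
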