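import Mathlib
import Pool.Agent.H846R3.RF.Dich3

set_option autoImplicit false

namespace Pool.Agent.H846R3.RF

lemma exists_section {H M : Type*} [Group H] [Group M] (φ : H →* M)
    (hφ : Function.Surjective φ) (hc : Nat.Coprime (Nat.card φ.ker) (Nat.card M)) :
    ∃ s : M →* H, ∀ m, φ (s m) = m := by
  have hc' : Nat.Coprime (Nat.card φ.ker) φ.ker.index := by
    rw [Subgroup.index_ker, MonoidHom.range_eq_top.mpr hφ]
    rwa [Nat.card_congr (Subgroup.topEquiv (G := M)).toEquiv]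
  obtain ⟨K, hK⟩ := Subgroup.exists_right_complement'_of_coprime hc'
  let ψ : K →* M := φ.comp K.subtype
  have hψ : Function.Bijective ψ := by
    constructor
    · rw [injective_iff_map_eq_one]
      intro k hk
      have h1 : k.1 ∈ φ.ker := hk
      have h2 := Subgroup.disjoint_def.mp hK.disjoint h1 k.2
      exact Subtype.ext h2
    · intro m
      obtain ⟨h, rfl⟩ := hφ m
      have h1 : h ∈ φ.ker ⊔ K := by rw [hK.sup_eq_top]; trivial
      obtain ⟨n, hn, k, hk, rfl⟩ := Subgroup.mem_sup_of_normal_left.mp h1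
      refine ⟨⟨k, hk⟩, ?_⟩
      show φ k = φ (n * k)
      rw [map_mul, MonoidHom.mem_ker.mp hn, one_mul]
  refine ⟨K.subtype.comp (MulEquiv.ofBijective ψ hψ).symm.toMonoidHom, ?_⟩
  intro m
  exact (MulEquiv.ofBijective ψ hψ).apply_symm_apply m

variable {E : Type*} [Group E]

structure Dat (π : E →* Gam) (p : ℕ) : Prop where
  surj : Function.Surjective π
  fin : Finite π.ker
  comm : ∀ a ∈ π.ker, ∀ b ∈ π.ker, a * b = b * a
  prime : p.Prime
  odd : p ≠ 2
  exp : ∀ v ∈ π.ker, v ^ p = 1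
  cop : ¬ p ∣ Nat.card M0
  cs : (∀ v ∈ π.ker, ∀ e : E, e * v = v * e) ∨
    ((∀ l m : Fin 5, l ≠ m → ∀ a b v : E, π a = dg (f l) → π b = dg (f m) → v ∈ π.ker →
        a * v = v * a → b * v = v * b → v = 1) ∧
     (∀ (m : Fin 5) (g : Gam), g * dg (f m) = dg (f m) * g → g * g * (g * g) = 1 →
        ∀ a c v : E, π a = dg (f m) → π c = g * g → v ∈ π.ker → a * v = v * a → c * v = v * c))

variable {π : E →* Gam} {p : ℕ}

namespace Dat

variable (D : Dat π p)

include D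

lemma card_ker : ∃ n, Nat.card π.ker = p ^ n := by
  haveI := D.fin
  haveI : Fact p.Prime := ⟨D.prime⟩
  have h : IsPGroup p π.ker := by
    intro v
    exact ⟨1, by rw [pow_one]; exact Subtype.ext (D.exp v.1 v.2)⟩
  exact IsPGroup.iff_card.mp h

lemma sec : ∃ s : M0 →* E, ∀ m, π (s m) = m.1 := by
  let H : Subgroup E := M0.comap π
  let φ : H →* M0 := (π.comp H.subtype).codRestrict M0 (fun h => h.2)
  have hφ : Function.Surjective φ := by
    intro m
    obtain ⟨e, he⟩ := D.surj m.1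
    exact ⟨⟨e, by show π e ∈ M0; rw [he]; exact m.2⟩, Subtype.ext he⟩
  obtain ⟨n, hn⟩ := D.card_ker
  have hk : Nat.card φ.ker = Nat.card π.ker := by
    apply Nat.card_congr
    refine ⟨fun v => ⟨v.1.1, ?_⟩, fun v => ⟨⟨v.1, ?_⟩, ?_⟩, fun v => rfl, fun v => rfl⟩
    · have := congrArg Subtype.val (MonoidHom.mem_ker.mp v.2)
      exact this
    · show π v.1 ∈ M0
      rw [MonoidHom.mem_ker.mp v.2]; exact M0.one_mem
    · exact Subtype.ext (MonoidHom.mem_ker.mp v.2)
  have hc : Nat.Coprime (Nat.card φ.ker) (Nat.card M0) := by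
    rw [hk, hn]
    exact Nat.Coprime.pow_left _ ((Nat.Prime.coprime_iff_not_dvd D.prime).mpr D.cop)
  obtain ⟨s, hs⟩ := exists_section φ hφ hc
  exact ⟨H.subtype.comp s, fun m => congrArg Subtype.val (hs m)⟩

/-- killing elements of order dividing two -/
lemma kill2 {v : E} (hv : v ∈ π.ker) (h : v = v⁻¹) : v = 1 := by
  have h1 : v ^ 2 = 1 := by
    rw [pow_two]; nth_rewrite 2 [h]; exact mul_inv_cancel v
  have h2 := D.exp v hv
  have h3 : Nat.Coprime 2 p := (Nat.coprime_primes Nat.prime_two D.prime).mpr (fun h => D.odd h.symm)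
  have h4 : orderOf v ∣ 1 := by
    rw [← h3]
    exact Nat.dvd_gcd (orderOf_dvd_of_pow_eq_one h1) (orderOf_dvd_of_pow_eq_one h2)
  exact orderOf_eq_one_iff.mp (Nat.dvd_one.mp h4)

end Dat

/-- the embedding of sign vectors in `M0` -/
def dM : DD →* M0 := dg.codRestrict M0 (fun d => ⟨_, _, dg_isSP d⟩)

/-- canonical lift condition -/
def Can (π : E →* Gam) (s : M0 →* E) (i j : Fin 5) (x : E) : Prop :=
  π x = el i j 1 ∧ ∀ d : DD, s (dM d) * x * (s (dM d))⁻¹ = x ^ (((d.1 i * d.1 j : ℤˣ) : ℤ))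

lemma dg_el (d : DD) {i j : Fin 5} (h : i ≠ j) (c : ℤ) :
    dg d * el i j c = el i j (((d.1 i * d.1 j : ℤˣ) : ℤ) * c) * dg d := by
  have := (dg_isSP d).mul_el h c
  simpa using this

lemma zpow_unit_unit (x : E) (u v : ℤˣ) : (x ^ (u : ℤ)) ^ (v : ℤ) = x ^ ((u * v : ℤˣ) : ℤ) := by
  rw [← zpow_mul]; push_cast; rfl

lemma exists_can (D : Dat π p) (s : M0 →* E) (hs : ∀ m, π (s m) = m.1) {i j : Fin 5} (hij : i ≠ j) :
    ∃ x, Can π s i j x := by
  classical
  let X := {x : E // π x = el i j 1}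
  have hact : ∀ (d : DD) (x : E), π x = el i j 1 →
      π (s (dM d) * x ^ ((d.1 i * d.1 j : ℤˣ) : ℤ) * (s (dM d))⁻¹) = el i j 1 := by
    intro d x hx
    rw [map_mul, map_mul, map_inv, map_zpow, hx, hs, el_one_zpow]
    show dg d * _ * (dg d)⁻¹ = _
    rw [dg_el d hij, mul_inv_cancel_right]
    congr 1
    rw [← Units.val_mul, Int.units_mul_self]; rfl
  letI : MulAction DD X :=
    { smul := fun d x => ⟨s (dM d) * x.1 ^ ((d.1 i * d.1 j : ℤˣ) : ℤ) * (s (dM d))⁻¹, hact d x.1 x.2⟩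
      one_smul := by
        intro x
        apply Subtype.ext
        show s (dM 1) * x.1 ^ (((1 : DD).1 i * (1 : DD).1 j : ℤˣ) : ℤ) * (s (dM 1))⁻¹ = x.1
        rw [map_one, map_one]
        simp
      mul_smul := by
        intro a b x
        apply Subtype.ext
        show s (dM (a * b)) * x.1 ^ (((a * b : DD).1 i * (a * b : DD).1 j : ℤˣ) : ℤ) *
            (s (dM (a * b)))⁻¹ =
          s (dM a) * (s (dM b) * x.1 ^ ((b.1 i * b.1 j : ℤˣ) : ℤ) * (s (dM b))⁻¹) ^
            ((a.1 i * a.1 j : ℤˣ) : ℤ) * (s (dM a))⁻¹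
        rw [conj_zpow, zpow_unit_unit, map_mul, map_mul]
        have : ((a * b : DD).1 i * (a * b : DD).1 j : ℤˣ) = b.1 i * b.1 j * (a.1 i * a.1 j) := by
          show a.1 i * b.1 i * (a.1 j * b.1 j) = _
          rw [mul_mul_mul_comm, mul_comm]
        rw [this]
        group }
  have hcard : Nat.card X = Nat.card π.ker := by
    obtain ⟨x0, hx0⟩ := D.surj (el i j 1)
    apply Nat.card_congr
    refine ⟨fun x => ⟨x0⁻¹ * x.1, ?_⟩, fun v => ⟨x0 * v.1, ?_⟩, ?_, ?_⟩
    · rw [MonoidHom.mem_ker, map_mul, map_inv, hx0, x.2, inv_mul_cancel]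
    · rw [map_mul, hx0, MonoidHom.mem_ker.mp v.2, mul_one]
    · intro x; apply Subtype.ext; simp
    · intro v; apply Subtype.ext; simp
  have h2 : IsPGroup 2 DD := by
    intro d
    exact ⟨1, by rw [pow_one, pow_two, DD_sq]⟩
  obtain ⟨n, hn⟩ := D.card_ker
  have hodd : ¬ 2 ∣ Nat.card X := by
    rw [hcard, hn]
    intro h
    have h3 := Nat.Prime.dvd_of_dvd_pow Nat.prime_two h
    exact D.odd ((Nat.prime_dvd_prime_iff_eq Nat.prime_two D.prime).mp h3).symm
  haveI : Fact (Nat.Prime 2) := ⟨Nat.prime_two⟩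
  obtain ⟨x, hx⟩ := h2.nonempty_fixed_point_of_prime_not_dvd_card X hodd
  refine ⟨x.1, x.2, ?_⟩
  intro d
  have h3 : s (dM d) * x.1 ^ ((d.1 i * d.1 j : ℤˣ) : ℤ) * (s (dM d))⁻¹ = x.1 :=
    congrArg Subtype.val (hx d)
  have h4 := congrArg (fun y => y ^ ((d.1 i * d.1 j : ℤˣ) : ℤ)) h3
  simp only [conj_zpow, zpow_unit_unit, Int.units_mul_self] at h4
  simpa using h4

end Pool.Agent.H846R3.RF
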