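import Mathlib
import Pool.Agent.H846R3.RF.Lift

set_option autoImplicit false

namespace Pool.Agent.H846R3.RF

variable {E : Type*} [Group E] {π : E →* Gam} {p : ℕ}

lemma f_ne {m i : Fin 5} (h : i ≠ m) : (f m).1 i = -1 := if_neg h
lemma f_eq (m : Fin 5) : (f m).1 m = 1 := if_pos rfl

/-- two indices outside a set of three -/
lemma two_out (i j k : Fin 5) : ∃ l m : Fin 5, l ≠ m ∧ l ≠ i ∧ l ≠ j ∧ l ≠ k ∧ m ≠ i ∧ m ≠ j ∧ m ≠ k := by
  revert i j k; decide

lemma one_out (i j k l : Fin 5) : ∃ m : Fin 5, m ≠ i ∧ m ≠ j ∧ m ≠ k ∧ m ≠ l := by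
  revert i j k l; decide

lemma all_in {i j k l m : Fin 5} (hij : i ≠ j) (hik : i ≠ k) (hil : i ≠ l) (hjk : j ≠ k)
    (hjl : j ≠ l) (hkl : k ≠ l) (him : m ≠ i) (hjm : m ≠ j) (hkm : m ≠ k) (hlm : m ≠ l) (q : Fin 5) :
    q = i ∨ q = j ∨ q = k ∨ q = l ∨ q = m := by
  revert i j k l m q; decide

namespace Can

variable {s : M0 →* E}

lemma comm_f (hs : ∀ m, π (s m) = m.1) {i j : Fin 5} {x : E} (h : Can π s i j x) {m : Fin 5}
    (hi : m ≠ i) (hj : m ≠ j) : s (dM (f m)) * x = x * s (dM (f m)) := by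
  have h1 := h.2 (f m)
  rw [f_ne hi.symm, f_ne hj.symm] at h1
  simp at h1
  have h2 : s (dM (f m)) * x * (s (dM (f m)))⁻¹ = x := by simpa using h1
  rw [← mul_inv_eq_iff_eq_mul]; exact h2

lemma inv_f {i j : Fin 5} {x : E} (h : Can π s i j x) {d : DD} (hd : d.1 i * d.1 j = -1) :
    s (dM d) * x * (s (dM d))⁻¹ = x⁻¹ := by
  have h1 := h.2 d
  rw [hd] at h1
  simpa using h1

lemma fix_f {i j : Fin 5} {x : E} (h : Can π s i j x) {d : DD} (hd : d.1 i * d.1 j = 1) :
    s (dM d) * x * (s (dM d))⁻¹ = x := by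
  have h1 := h.2 d
  rw [hd] at h1
  simpa using h1

end Can

lemma comm_kerB {a b v : E} (h : a * v = v * a) (h' : b * v = v * b) : (a * b) * v = v * (a * b) := by
  rw [mul_assoc, h', ← mul_assoc, h, mul_assoc]

lemma can_unique (D : Dat π p) (s : M0 →* E) (hs : ∀ m, π (s m) = m.1) {i j : Fin 5} (hij : i ≠ j)
    {x y : E} (hx : Can π s i j x) (hy : Can π s i j y) : x = y := by
  have hv : x⁻¹ * y ∈ π.ker := by
    rw [MonoidHom.mem_ker, map_mul, map_inv, hx.1, hy.1, inv_mul_cancel]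
  have key : x⁻¹ * y = 1 := by
    rcases D.cs with hA | ⟨hB, -⟩
    · apply D.kill2 hv
      have hd : (f i).1 i * (f i).1 j = -1 := by rw [f_eq, f_ne hij.symm]; rfl
      have h1 := hx.inv_f hd
      have h2 := hy.inv_f hd
      have h3 : s (dM (f i)) * (x⁻¹ * y) * (s (dM (f i)))⁻¹ = x⁻¹ * y := by
        rw [hA _ hv]; group
      have h4 : s (dM (f i)) * (x⁻¹ * y) * (s (dM (f i)))⁻¹ =
          (s (dM (f i)) * x * (s (dM (f i)))⁻¹)⁻¹ * (s (dM (f i)) * y * (s (dM (f i)))⁻¹) := by group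
      rw [h4, h1, h2, inv_inv] at h3
      -- x * y⁻¹ = x⁻¹ * y
      have h5 : x * y⁻¹ = (x⁻¹ * y)⁻¹ := by
        have h6 := hA _ hv x
        -- x * (x⁻¹ y) = (x⁻¹ y) * x
        have h7 : y = x⁻¹ * y * x := by rw [← h6]; group
        have h8 : x * y⁻¹ = x * (x⁻¹ * y * x)⁻¹ := by rw [← h7]
        rw [h8]; group
      rw [← h5, h3]
    · obtain ⟨l, m, hlm, h1, h2, -, h3, h4, -⟩ := two_out i j j
      have c1 := hx.comm_f hs h1 h2
      have c2 := hy.comm_f hs h1 h2
      have c3 := hx.comm_f hs h3 h4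
      have c4 := hy.comm_f hs h3 h4
      have cc : ∀ a : E, a * x = x * a → a * y = y * a → a * (x⁻¹ * y) = (x⁻¹ * y) * a := by
        intro a h1 h2
        exact ((show Commute a x from h1).inv_right.mul_right (show Commute a y from h2))
      exact hB l m hlm _ _ _ (hs _) (hs _) hv (cc _ c1 c2) (cc _ c3 c4)
  have : y = x := by
    have := congrArg (fun z => x * z) key
    simpa using this
  exact this.symm

lemma unit_of_pm {a : ℤ} (h : a = 1 ∨ a = -1) : ∃ u : ℤˣ, (u : ℤ) = a := by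
  rcases h with h | h
  · exact ⟨1, by rw [h]; rfl⟩
  · exact ⟨-1, by rw [h]; rfl⟩

lemma equivar (D : Dat π p) (s : M0 →* E) (hs : ∀ m, π (s m) = m.1) {x : Fin 5 → Fin 5 → E}
    (hx : ∀ i j, i ≠ j → Can π s i j (x i j)) (g : M0) {σ : Equiv.Perm (Fin 5)} {ε : Fin 5 → ℤ}
    (hg : IsSP g.1 σ ε) {i j : Fin 5} (hij : i ≠ j) :
    s g * x (σ i) (σ j) * (s g)⁻¹ = x i j ^ (ε i * ε j) := by
  have hσ : σ i ≠ σ j := fun h => hij (σ.injective h)
  obtain ⟨u, hu⟩ := unit_of_pm (hg.1 i)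
  obtain ⟨v, hv⟩ := unit_of_pm (hg.1 j)
  have huv : ε i * ε j = ((u * v : ℤˣ) : ℤ) := by rw [← hu, ← hv]; push_cast; rfl
  have hy : Can π s i j ((s g * x (σ i) (σ j) * (s g)⁻¹) ^ (((u * v : ℤˣ)) : ℤ)) := by
    constructor
    · rw [map_zpow, map_mul, map_mul, map_inv, hs, (hx _ _ hσ).1, hg.mul_el hij,
        mul_inv_cancel_right, mul_one, huv, ← el_one_zpow, zpow_unit_unit, Int.units_mul_self]
      simp
    · intro d
      -- d' with perm σ d' = d
      have h1 := hg.mul_dg (perm σ.symm d)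
      have h2 : perm σ (perm σ.symm d) = d := by
        apply Subtype.ext; funext q
        show d.1 (σ.symm (σ q)) = d.1 q
        rw [Equiv.symm_apply_apply]
      rw [h2] at h1
      have h3 : g * dM (perm σ.symm d) = dM d * g := Subtype.ext h1
      have h4 : s g * s (dM (perm σ.symm d)) = s (dM d) * s g := by
        rw [← map_mul, h3, map_mul]
      have h5 := (hx _ _ hσ).2 (perm σ.symm d)
      have h6 : (perm σ.symm d).1 (σ i) = d.1 i := by
        show d.1 (σ.symm (σ i)) = _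
        rw [Equiv.symm_apply_apply]
      have h7 : (perm σ.symm d).1 (σ j) = d.1 j := by
        show d.1 (σ.symm (σ j)) = _
        rw [Equiv.symm_apply_apply]
      rw [h6, h7] at h5
      have h8 : s (dM d) * (s g * x (σ i) (σ j) * (s g)⁻¹) * (s (dM d))⁻¹ =
          (s g * x (σ i) (σ j) * (s g)⁻¹) ^ ((d.1 i * d.1 j : ℤˣ) : ℤ) := by
        rw [conj_zpow, ← h5]
        have h9 : s (dM d) = s g * s (dM (perm σ.symm d)) * (s g)⁻¹ := by rw [h4]; group
        rw [h9]; group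
      rw [← conj_zpow, h8, zpow_unit_unit, zpow_unit_unit, mul_comm]
  have h1 := can_unique D s hs hij hy (hx i j hij)
  rw [huv, ← h1, zpow_unit_unit, Int.units_mul_self]
  simp

lemma com_inv_A {X Y c : E} (hc : X * Y = c * (Y * X)) (hcX : X * c = c * X) (hcY : Y * c = c * Y) :
    X⁻¹ * Y * X * Y⁻¹ = c⁻¹ := by
  have h1 : Y * X = c⁻¹ * (X * Y) := by rw [hc]; group
  have h2 : X⁻¹ * Y * X * Y⁻¹ = X⁻¹ * (Y * X) * Y⁻¹ := by group
  rw [h2, h1]
  have h3 : X⁻¹ * (c⁻¹ * (X * Y)) * Y⁻¹ = X⁻¹ * c⁻¹ * X := by group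
  rw [h3]
  have h4 : c⁻¹ * X = X * c⁻¹ := ((show Commute X c from hcX).inv_right).eq.symm
  rw [mul_assoc, h4]; group

theorem stein_comm (D : Dat π p) (s : M0 →* E) (hs : ∀ m, π (s m) = m.1) {x : Fin 5 → Fin 5 → E}
    (hx : ∀ i j, i ≠ j → Can π s i j (x i j)) (i j k l : Fin 5) (hij : i ≠ j) (hkl : k ≠ l)
    (hjk : j ≠ k) (hil : i ≠ l) : x i j * x k l = x k l * x i j := by
  -- the commutator
  set c := x i j * x k l * (x i j)⁻¹ * (x k l)⁻¹ with hc
  have hcker : c ∈ π.ker := by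
    rw [MonoidHom.mem_ker, hc]
    simp only [map_mul, map_inv]
    rw [(hx i j hij).1, (hx k l hkl).1, el_cm hij hkl hjk hil]; group
  suffices h : c = 1 by
    rw [hc] at h
    calc x i j * x k l = (x i j * x k l * (x i j)⁻¹ * (x k l)⁻¹) * (x k l * x i j) := by group
      _ = _ := by rw [h, one_mul]
  have hcXY : x i j * x k l = c * (x k l * x i j) := by rw [hc]; group
  rcases D.cs with hA | ⟨hB, hB2⟩
  · have hcc : ∀ e, e * c = c * e := fun e => (hA c hcker e)
    apply D.kill2 hcker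
    have h3 : ∀ d : E, d * c * d⁻¹ = c := fun d => by rw [hcc]; group
    have h3' : ∀ d : E, d * c * d⁻¹ = (d * x i j * d⁻¹) * (d * x k l * d⁻¹) * (d * x i j * d⁻¹)⁻¹ *
        (d * x k l * d⁻¹)⁻¹ := fun d => by rw [hc]; group
    by_cases hik : i = k
    · subst hik
      by_cases hjl : j = l
      · subst hjl
        have : c = 1 := by rw [hc]; group
        rw [this, inv_one]
      · -- d = f j
        have h1 := (hx i j hij).inv_f (d := f j) (by rw [f_eq, f_ne hij]; rfl)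
        have h2 := (hx i l hkl).fix_f (d := f j) (by rw [f_ne hij, f_ne (Ne.symm hjl)]; rfl)
        have h4 := h3' (s (dM (f j)))
        rw [h1, h2, h3, inv_inv, com_inv_A hcXY (hcc _) (hcc _)] at h4
        exact h4
    · have h1 := (hx i j hij).inv_f (d := f i) (by rw [f_eq, f_ne hij.symm]; rfl)
      have h2 := (hx k l hkl).fix_f (d := f i) (by rw [f_ne (Ne.symm hik), f_ne hil.symm]; rfl)
      have h4 := h3' (s (dM (f i)))
      rw [h1, h2, h3, inv_inv, com_inv_A hcXY (hcc _) (hcc _)] at h4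
      exact h4
  · have cc : ∀ m : Fin 5, m ≠ i → m ≠ j → m ≠ k → m ≠ l → s (dM (f m)) * c = c * s (dM (f m)) := by
      intro m h1 h2 h3 h4
      have c1 : Commute (s (dM (f m))) (x i j) := (hx i j hij).comm_f hs h1 h2
      have c2 : Commute (s (dM (f m))) (x k l) := (hx k l hkl).comm_f hs h3 h4
      rw [hc]
      exact ((c1.mul_right c2).mul_right c1.inv_right).mul_right c2.inv_right
    have three : ∀ l' m' : Fin 5, l' ≠ m' → (l' ≠ i ∧ l' ≠ j ∧ l' ≠ k ∧ l' ≠ l) →
        (m' ≠ i ∧ m' ≠ j ∧ m' ≠ k ∧ m' ≠ l) → c = 1 := by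
      rintro l' m' h ⟨a1, a2, a3, a4⟩ ⟨b1, b2, b3, b4⟩
      exact hB l' m' h _ _ _ (hs _) (hs _) hcker (cc l' a1 a2 a3 a4) (cc m' b1 b2 b3 b4)
    by_cases hik : i = k
    · subst hik
      obtain ⟨l', m', h, a1, a2, a3, b1, b2, b3⟩ := two_out i j l
      exact three l' m' h ⟨a1, a2, a1, a3⟩ ⟨b1, b2, b1, b3⟩
    · by_cases hjl : j = l
      · subst hjl
        obtain ⟨l', m', h, a1, a2, a3, b1, b2, b3⟩ := two_out i j k
        exact three l' m' h ⟨a1, a2, a3, a2⟩ ⟨b1, b2, b3, b2⟩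
      · obtain ⟨m, m1, m2, m3, m4⟩ := one_out i j k l
        obtain ⟨g, σ, hg, s1, s2, s3, s4, s5⟩ :=
          exists_cycle hij hik hil hjk hjl hkl m1 m2 m3 m4
        have hall := all_in hij hik hil hjk hjl hkl m1 m2 m3 m4
        have hg2 := hg.mul hg
        have hgM : g * g ∈ M0 := ⟨_, _, hg2⟩
        -- commutation with f m
        have e1 : g * dg (f m) = dg (f m) * g := by
          have h1 := hg.mul_dg (f m)
          have h2 := perm_f σ m
          rw [s5] at h2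
          rwa [h2] at h1
        have e2 : g * g * (g * g) = 1 := by
          refine IsSP.ext' (hg2.mul hg2) IsSP.one ?_ ?_
          · intro q
            simp only [Equiv.Perm.mul_apply, Equiv.Perm.one_apply]
            rcases hall q with rfl | rfl | rfl | rfl | rfl
            · rw [s1, s2, s3, s4]
            · rw [s2, s3, s4, s1]
            · rw [s3, s4, s1, s2]
            · rw [s4, s1, s2, s3]
            · rw [s5, s5, s5, s5]
          · intro q
            rcases hall q with rfl | rfl | rfl | rfl | rfl <;>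
              simp [Equiv.Perm.mul_apply, s1, s2, s3, s4, s5, m1.symm, m2.symm, m3.symm, m4.symm]
        have h5 := hB2 m g e1 e2 (s (dM (f m))) (s ⟨g * g, hgM⟩) c (hs _) (hs _) hcker
          (cc m m1 m2 m3 m4)
        have q1 := equivar D s hs hx ⟨g * g, hgM⟩ hg2 hij
        have q2 := equivar D s hs hx ⟨g * g, hgM⟩ hg2 hkl
        simp only [Equiv.Perm.mul_apply] at q1 q2
        rw [s1, s2, s3] at q1
        rw [s3, s4, s1] at q2
        simp only [m1.symm, m2.symm, m3.symm, m4.symm, if_false, mul_one, zpow_one] at q1 q2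
        set w := s ⟨g * g, hgM⟩ with hw
        have h6 : w * c * w⁻¹ = c⁻¹ := by
          have : w * c * w⁻¹ = (w * x i j * w⁻¹) * (w * x k l * w⁻¹) * (w * x i j * w⁻¹)⁻¹ *
            (w * x k l * w⁻¹)⁻¹ := by rw [hc]; group
          rw [this, q1, q2, hc]; group
        apply D.kill2 hcker
        rw [← h6, h5]; group

theorem stein_st (D : Dat π p) (s : M0 →* E) (hs : ∀ m, π (s m) = m.1) {x : Fin 5 → Fin 5 → E}
    (hx : ∀ i j, i ≠ j → Can π s i j (x i j)) (i j k : Fin 5) (hij : i ≠ j) (hjk : j ≠ k)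
    (hik : i ≠ k) : x i j * x j k = x i k * x j k * x i j := by
  set c := x i j * x j k * (x i j)⁻¹ * (x j k)⁻¹ * (x i k)⁻¹ with hc
  have hcker : c ∈ π.ker := by
    rw [MonoidHom.mem_ker, hc]
    simp only [map_mul, map_inv]
    rw [(hx i j hij).1, (hx j k hjk).1, (hx i k hik).1, el_st hij hjk hik, mul_one]; group
  have hZX : x i k * x i j = x i j * x i k := stein_comm D s hs hx i k i j hik hij hik.symm hij
  have hZY : x i k * x j k = x j k * x i k := stein_comm D s hs hx i k j k hik hjk hjk.symm hik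
  suffices h : c = 1 by
    rw [hc] at h
    calc x i j * x j k = (x i j * x j k * (x i j)⁻¹ * (x j k)⁻¹ * (x i k)⁻¹) *
          (x i k * x j k * x i j) := by group
      _ = _ := by rw [h, one_mul]
  rcases D.cs with hA | ⟨hB, -⟩
  · have hcc : ∀ e, e * c = c * e := fun e => (hA c hcker e)
    apply D.kill2 hcker
    have h1 := (hx i j hij).inv_f (d := f i) (by rw [f_eq, f_ne hij.symm]; rfl)
    have h2 := (hx j k hjk).fix_f (d := f i) (by rw [f_ne hij.symm, f_ne hik.symm]; rfl)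
    have h3 := (hx i k hik).inv_f (d := f i) (by rw [f_eq, f_ne hik.symm]; rfl)
    set d := s (dM (f i)) with hd
    have h4 : d * c * d⁻¹ = c := by rw [hcc]; group
    have h5 : d * c * d⁻¹ = (d * x i j * d⁻¹) * (d * x j k * d⁻¹) * (d * x i j * d⁻¹)⁻¹ *
        (d * x j k * d⁻¹)⁻¹ * (d * x i k * d⁻¹)⁻¹ := by rw [hc]; group
    rw [h1, h2, h3, h4, inv_inv, inv_inv] at h5
    -- c = X⁻¹ Y X Y⁻¹ Z ; and X Y = (c Z) Y X
    have h6 : x i j * x j k = (c * x i k) * (x j k * x i j) := by rw [hc]; group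
    have cX : Commute (x i j) c := hcc _
    have cY : Commute (x j k) c := hcc _
    have ZX : Commute (x i j) (x i k) := hZX.symm
    have ZY : Commute (x j k) (x i k) := hZY.symm
    have h7 := com_inv_A h6 (cX.mul_right ZX).eq (cY.mul_right ZY).eq
    rw [h7] at h5
    have h8 : (c * x i k)⁻¹ * x i k = c⁻¹ := by
      rw [← hcc (x i k)]; group
    rw [h8] at h5
    exact h5
  · obtain ⟨l, m, hlm, a1, a2, a3, b1, b2, b3⟩ := two_out i j k
    have cc : ∀ m : Fin 5, m ≠ i → m ≠ j → m ≠ k → s (dM (f m)) * c = c * s (dM (f m)) := by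
      intro m h1 h2 h3
      have c1 : Commute (s (dM (f m))) (x i j) := (hx i j hij).comm_f hs h1 h2
      have c2 : Commute (s (dM (f m))) (x j k) := (hx j k hjk).comm_f hs h2 h3
      have c3 : Commute (s (dM (f m))) (x i k) := (hx i k hik).comm_f hs h1 h3
      rw [hc]
      exact (((c1.mul_right c2).mul_right c1.inv_right).mul_right c2.inv_right).mul_right c3.inv_right
    exact hB l m hlm _ _ _ (hs _) (hs _) hcker (cc l a1 a2 a3) (cc m b1 b2 b3)

theorem w_mem (D : Dat π p) (s : M0 →* E) (hs : ∀ m, π (s m) = m.1) {x : Fin 5 → Fin 5 → E}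
    (hx : ∀ i j, i ≠ j → Can π s i j (x i j)) (i j : Fin 5) (hij : i ≠ j) :
    x i j * (x j i)⁻¹ * x i j ∈ s.range := by
  let m : M0 := ⟨el i j 1 * el j i (-1) * el i j 1, _, _, w_isSP hij⟩
  refine ⟨m, ?_⟩
  set w := x i j * (x j i)⁻¹ * x i j with hw
  have hcker : w * (s m)⁻¹ ∈ π.ker := by
    rw [MonoidHom.mem_ker, map_mul, map_inv, hs, hw]
    simp only [map_mul, map_inv]
    rw [(hx i j hij).1, (hx j i hij.symm).1, el_inv]
    exact mul_inv_cancel _
  suffices h : w * (s m)⁻¹ = 1 by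
    exact (mul_inv_eq_one.mp h).symm
  rcases D.cs with hA | ⟨hB, -⟩
  · apply D.kill2 hcker
    have h1 := (hx i j hij).inv_f (d := f i) (by rw [f_eq, f_ne hij.symm]; rfl)
    have h2 := (hx j i hij.symm).inv_f (d := f i) (by rw [f_eq, f_ne hij.symm]; rfl)
    have hm : dM (f i) * m = m⁻¹ * dM (f i) := by
      apply Subtype.ext
      show dg (f i) * (el i j 1 * el j i (-1) * el i j 1) =
        (el i j 1 * el j i (-1) * el i j 1)⁻¹ * dg (f i)
      have e1 := dg_el (f i) hij 1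
      have e2 := dg_el (f i) hij.symm (-1)
      rw [f_eq, f_ne hij.symm] at e1 e2
      simp at e1 e2
      rw [← mul_assoc, ← mul_assoc, e1, mul_assoc (el i j (-1)), e2, ← mul_assoc, mul_assoc _ (dg (f i)),
        e1, mul_inv_rev, mul_inv_rev, el_inv, el_inv, neg_neg]
      group
    set d := s (dM (f i)) with hd
    have hm2 : d * s m * d⁻¹ = (s m)⁻¹ := by
      rw [hd, ← map_mul, hm, map_mul, map_inv]; group
    have h4 : d * (w * (s m)⁻¹) * d⁻¹ = w * (s m)⁻¹ := by rw [hA _ hcker]; group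
    have h5 : d * (w * (s m)⁻¹) * d⁻¹ = (d * x i j * d⁻¹) * (d * x j i * d⁻¹)⁻¹ *
        (d * x i j * d⁻¹) * (d * s m * d⁻¹)⁻¹ := by rw [hw]; group
    rw [h4, h1, h2, hm2, inv_inv, inv_inv] at h5
    -- w μ⁻¹ = X⁻¹ Y X⁻¹ μ = w⁻¹ μ
    have h6 : (x i j)⁻¹ * x j i * (x i j)⁻¹ = w⁻¹ := by rw [hw]; group
    rw [h6] at h5
    have h7 : (w * (s m)⁻¹)⁻¹ = w⁻¹ * s m := by
      have h8 := hA _ hcker w
      -- w * (w μ⁻¹) = (w μ⁻¹) w
      have h9 : (w * (s m)⁻¹)⁻¹ = w * (w * (s m)⁻¹)⁻¹ * w⁻¹ := by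
        have : w * (w * (s m)⁻¹)⁻¹ = (w * (s m)⁻¹)⁻¹ * w :=
          ((show Commute w (w * (s m)⁻¹) from h8).inv_right).eq
        rw [this]; group
      have h10 : w⁻¹ * s m = w⁻¹ * ((w * (s m)⁻¹)⁻¹) * w := by group
      have : w⁻¹ * (w * (s m)⁻¹)⁻¹ = (w * (s m)⁻¹)⁻¹ * w⁻¹ :=
          ((show Commute w (w * (s m)⁻¹) from h8).inv_inv).eq
      rw [h10, this]; group
    rw [h7]; exact h5
  · obtain ⟨l, q, hlm, a1, a2, -, b1, b2, -⟩ := two_out i j j
    have cc : ∀ q : Fin 5, q ≠ i → q ≠ j →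
        s (dM (f q)) * (w * (s m)⁻¹) = (w * (s m)⁻¹) * s (dM (f q)) := by
      intro q h1 h2
      have c1 : Commute (s (dM (f q))) (x i j) := (hx i j hij).comm_f hs h1 h2
      have c2 : Commute (s (dM (f q))) (x j i) := (hx j i hij.symm).comm_f hs h2 h1
      have c3 : Commute (s (dM (f q))) (s m) := by
        have h3 : dM (f q) * m = m * dM (f q) := by
          apply Subtype.ext
          show dg (f q) * (el i j 1 * el j i (-1) * el i j 1) =
            (el i j 1 * el j i (-1) * el i j 1) * dg (f q)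
          have e1 := dg_el (f q) hij 1
          have e2 := dg_el (f q) hij.symm (-1)
          rw [f_ne h1.symm, f_ne h2.symm] at e1 e2
          simp at e1 e2
          have k1 : Commute (dg (f q)) (el i j 1) := e1
          have k2 : Commute (dg (f q)) (el j i (-1)) := e2
          exact (k1.mul_right k2).mul_right k1
        show s (dM (f q)) * s m = s m * s (dM (f q))
        rw [← map_mul, h3, map_mul]
      rw [hw]
      exact (((c1.mul_right c2.inv_right).mul_right c1).mul_right c3.inv_right)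
    exact hB l q hlm _ _ _ (hs _) (hs _) hcker (cc l a1 a2) (cc q b1 b2)

theorem main_ext (D : Dat π p) : ∃ S : Subgroup E, (∀ t ∈ S, π t = 1 → t = 1) ∧
    ∀ e, ∃ t ∈ S, π t = π e := by
  obtain ⟨s, hs⟩ := D.sec
  have hex : ∀ i j : Fin 5, ∃ x : E, i ≠ j → Can π s i j x := by
    intro i j
    by_cases h : i = j
    · exact ⟨1, fun h' => absurd h h'⟩
    · obtain ⟨x, hx⟩ := exists_can D s hs h
      exact ⟨x, fun _ => hx⟩
  choose x hx using hex
  let Sy : Sys π :=
    { x := x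
      M := s.range
      hx := fun i j h => (hx i j h).1
      comm := fun i j k l h1 h2 h3 h4 => stein_comm D s hs hx i j k l h1 h2 h3 h4
      st := fun i j k h1 h2 h3 => stein_st D s hs hx i j k h1 h2 h3
      inj := by
        rintro _ ⟨m, rfl⟩ h
        rw [hs] at h
        have : m = 1 := Subtype.ext h
        rw [this, map_one]
      conj := by
        rintro _ ⟨m, rfl⟩
        obtain ⟨σ, ε, hm⟩ := mem_M0.mp m.2
        refine ⟨σ, ε, ?_, ?_⟩
        · rw [hs]; exact hm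
        · intro i j hij
          exact equivar D s hs hx m hm hij
      w := fun i j h => w_mem D s hs hx i j h }
  refine ⟨_, Sy.ker_trivial, ?_⟩
  intro e
  have h1 : EL ≤ (Subgroup.closure ({g | ∃ i j : Fin 5, i ≠ j ∧ g = Sy.x i j} ∪ (Sy.M : Set E))).map π := by
    rw [EL, Subgroup.closure_le]
    rintro _ ⟨i, j, hij, rfl⟩
    exact ⟨x i j, Subgroup.subset_closure (Or.inl ⟨i, j, hij, rfl⟩), (hx i j hij).1⟩
  have h2 : π e ∈ EL := by rw [EL_top]; trivial
  obtain ⟨t, ht, h3⟩ := h1 h2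
  exact ⟨t, ht, h3⟩

end Pool.Agent.H846R3.RF
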