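import Mathlib
import Pool.Agent.H846R3.RF.Lift2

set_option autoImplicit false

namespace Pool.Agent.H846R3.RF

/-- the injective ring hom from integral to rational endomorphisms -/
noncomputable def Theta : Module.End ℤ (Fin 5 → ℤ) →+* Module.End ℚ (Fin 5 → ℚ) :=
  ((Matrix.toLinAlgEquiv' : Matrix (Fin 5) (Fin 5) ℚ ≃ₐ[ℚ] _).toRingEquiv.toRingHom).comp
    (((Int.castRingHom ℚ).mapMatrix).comp
      ((LinearMap.toMatrixAlgEquiv' : _ ≃ₐ[ℤ] Matrix (Fin 5) (Fin 5) ℤ).toRingEquiv.toRingHom))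

lemma Theta_inj : Function.Injective Theta := by
  unfold Theta
  have h2 : Function.Injective ((Int.castRingHom ℚ).mapMatrix :
      Matrix (Fin 5) (Fin 5) ℤ →+* Matrix (Fin 5) (Fin 5) ℚ) := by
    intro A B h
    exact Matrix.map_injective (RingHom.injective_int (Int.castRingHom ℚ)) h
  exact (Matrix.toLinAlgEquiv' : Matrix (Fin 5) (Fin 5) ℚ ≃ₐ[ℚ] _).injective.comp
    (h2.comp (LinearMap.toMatrixAlgEquiv' : _ ≃ₐ[ℤ] Matrix (Fin 5) (Fin 5) ℤ).injective)

section
variable {G : Type} [Group G] (N : Subgroup G) [hN : N.Normal]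
  (φ : N ≃* Multiplicative (Fin 5 → ℤ)) 

/-- conjugation on `N` -/
def cj (e : G) (n : N) : N := ⟨e * n.1 * e⁻¹, hN.conj_mem _ n.2 e⟩

lemma cj_mul (e : G) (a b : N) : cj N e (a * b) = cj N e a * cj N e b := by
  apply Subtype.ext
  show e * (a.1 * b.1) * e⁻¹ = (e * a.1 * e⁻¹) * (e * b.1 * e⁻¹)
  group

lemma cj_cj (e f : G) (a : N) : cj N (e * f) a = cj N e (cj N f a) := by
  apply Subtype.ext
  show e * f * a.1 * (e * f)⁻¹ = e * (f * a.1 * f⁻¹) * e⁻¹
  group

/-- the action on the lattice -/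
def tau : G →* Module.End ℤ (Fin 5 → ℤ) where
  toFun e := AddMonoidHom.toIntLinearMap
    { toFun := fun v => (φ (cj N e (φ.symm (Multiplicative.ofAdd v)))).toAdd
      map_zero' := by
        have : cj N e 1 = 1 := by
          apply Subtype.ext
          show e * 1 * e⁻¹ = 1
          group
        rw [ofAdd_zero, map_one, this, map_one, toAdd_one]
      map_add' := by
        intro v w
        rw [ofAdd_add, map_mul, cj_mul, map_mul, toAdd_mul] }
  map_one' := by
    apply LinearMap.ext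
    intro v
    show (φ (cj N 1 (φ.symm (Multiplicative.ofAdd v)))).toAdd = v
    have : ∀ n : N, cj N 1 n = n := by
      intro n
      apply Subtype.ext
      show 1 * n.1 * 1⁻¹ = n.1
      group
    rw [this, MulEquiv.apply_symm_apply, toAdd_ofAdd]
  map_mul' := by
    intro a b
    apply LinearMap.ext
    intro v
    show (φ (cj N (a * b) (φ.symm (Multiplicative.ofAdd v)))).toAdd =
      (φ (cj N a (φ.symm (Multiplicative.ofAdd (φ (cj N b (φ.symm (Multiplicative.ofAdd v)))).toAdd)))).toAdd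
    rw [cj_cj, ofAdd_toAdd, MulEquiv.symm_apply_apply]

lemma tau_apply (e : G) (n : N) : tau N φ e (φ n).toAdd = (φ (cj N e n)).toAdd := by
  show (φ (cj N e (φ.symm (Multiplicative.ofAdd (φ n).toAdd)))).toAdd = _
  rw [ofAdd_toAdd, MulEquiv.symm_apply_apply]

include φ in
lemma N_comm (a b : N) : a * b = b * a := by
  apply φ.injective
  rw [map_mul, map_mul, mul_comm]

lemma tau_N (e : G) (he : e ∈ N) : tau N φ e = 1 := by
  apply LinearMap.ext
  intro v
  show (φ (cj N e (φ.symm (Multiplicative.ofAdd v)))).toAdd = v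
  have : ∀ n : N, cj N e n = n := by
    intro n
    apply Subtype.ext
    show e * n.1 * e⁻¹ = n.1
    have := congrArg Subtype.val (N_comm N φ ⟨e, he⟩ n)
    have h2 : e * n.1 = n.1 * e := this
    rw [h2]; group
  rw [this, MulEquiv.apply_symm_apply, toAdd_ofAdd]

/-- the subgroup of `p`-th powers of elements of `N` -/
def Kp (hc : ∀ a b : N, a * b = b * a) (p : ℕ) : Subgroup G where
  carrier := {x | ∃ n ∈ N, x = n ^ p}
  one_mem' := ⟨1, N.one_mem, by simp⟩
  mul_mem' := by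
    rintro _ _ ⟨a, ha, rfl⟩ ⟨b, hb, rfl⟩
    have h : Commute a b := congrArg Subtype.val (hc ⟨a, ha⟩ ⟨b, hb⟩)
    exact ⟨a * b, N.mul_mem ha hb, (h.mul_pow p).symm⟩
  inv_mem' := by
    rintro _ ⟨a, ha, rfl⟩
    exact ⟨a⁻¹, N.inv_mem ha, by rw [inv_pow]⟩

instance Kp_normal (hc : ∀ a b : N, a * b = b * a) (p : ℕ) : (Kp N hc p).Normal := by
  constructor
  rintro _ ⟨a, ha, rfl⟩ g
  exact ⟨g * a * g⁻¹, hN.conj_mem _ ha g, by rw [conj_pow]⟩

end

/-- key relations on the lattice level -/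
theorem rels {G : Type} [Group G] (N : Subgroup G) [hN : N.Normal]
    (φ : N ≃* Multiplicative (Fin 5 → ℤ)) (ψ : G ⧸ N ≃* Gam) :
    (∀ e : G, tau N φ e = 1) ∨
    ((∀ l m : Fin 5, l ≠ m → ∀ a b : G, ψ a = dg (f l) → ψ b = dg (f m) →
        (1 + tau N φ a) * (1 + tau N φ b) = 0) ∧
     (∀ (m : Fin 5) (g : Gam), g * dg (f m) = dg (f m) * g → g * g * (g * g) = 1 →
        ∀ a c : G, ψ a = dg (f m) → ψ c = g * g →
          tau N φ c * (1 + tau N φ a) = 1 + tau N φ a)) := by
  let ρG : G →* Module.End ℚ (Fin 5 → ℚ) := (Theta : _ →* _).comp (tau N φ)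
  have hker : N ≤ ρG.ker := by
    intro n hn
    show Theta (tau N φ n) = 1
    rw [tau_N N φ n hn, map_one]
  let ρ : Gam →* Module.End ℚ (Fin 5 → ℚ) :=
    (QuotientGroup.lift N ρG hker).comp ψ.symm.toMonoidHom
  have hρ : ∀ e : G, ρ (ψ e) = Theta (tau N φ e) := by
    intro e
    show QuotientGroup.lift N ρG hker (ψ.symm (ψ e)) = _
    rw [MulEquiv.symm_apply_apply]
    rfl
  have hV : Module.finrank ℚ (Fin 5 → ℚ) = 5 := by simp
  rcases dich hV ρ with hA | ⟨hB1, hB2⟩
  · left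
    intro e
    apply Theta_inj
    rw [← hρ, hA, map_one]
  · right
    constructor
    · intro l m hlm a b ha hb
      apply Theta_inj
      rw [map_mul, map_add, map_add, map_one, map_zero, ← hρ, ← hρ, ha, hb]
      exact hB1 l m hlm
    · intro m g h1 h2 a c ha hc
      apply Theta_inj
      rw [map_mul, map_add, map_one, ← hρ, ← hρ, ha, hc]
      exact hB2 m g h1 h2

end Pool.Agent.H846R3.RF
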