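import Mathlib
import Pool.Agent.H846R3.RF.Asm

set_option autoImplicit false

namespace Pool.Agent.H846R3.RF

/-- residual finiteness of `SL₅(ℤ)` in the form we need -/
theorem quot_trivial {G : Type} [Group G] (π₀ : G →* Gam) (g : G)
    (hg : ∀ H : Subgroup G, H.FiniteIndex → g ∈ H) : π₀ g = 1 := by
  have key : ∀ m : ℕ, 0 < m → ∀ i j, (m : ℤ) ∣ (π₀ g) i j - (1 : Matrix (Fin 5) (Fin 5) ℤ) i j := by
    intro m hm i j
    haveI : NeZero m := ⟨hm.ne'⟩
    let r : G →* Matrix.SpecialLinearGroup (Fin 5) (ZMod m) :=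
      (Matrix.SpecialLinearGroup.map (Int.castRingHom (ZMod m))).comp π₀
    have h1 : r.ker.FiniteIndex := inferInstance
    have h2 : r g = 1 := hg _ h1
    have h3 : ((π₀ g i j : ℤ) : ZMod m) = (1 : Matrix (Fin 5) (Fin 5) (ZMod m)) i j := by
      have := congrArg (fun A : Matrix.SpecialLinearGroup (Fin 5) (ZMod m) => A i j) h2
      exact this
    have h4 : (((1 : Matrix (Fin 5) (Fin 5) ℤ) i j : ℤ) : ZMod m) =
        (1 : Matrix (Fin 5) (Fin 5) (ZMod m)) i j := by
      rw [Matrix.one_apply, Matrix.one_apply]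
      split_ifs <;> simp
    rw [← ZMod.intCast_zmod_eq_zero_iff_dvd, Int.cast_sub, h3, h4, sub_self]
  ext i j
  have h := key ((π₀ g i j - (1 : Matrix (Fin 5) (Fin 5) ℤ) i j).natAbs + 1) (Nat.succ_pos _) i j
  have h2 : π₀ g i j - (1 : Matrix (Fin 5) (Fin 5) ℤ) i j = 0 := by
    by_contra hne
    have h3 := Int.natAbs_dvd_natAbs.mpr h
    have h4 := Nat.le_of_dvd (Int.natAbs_pos.mpr hne) h3
    simp only [Int.natAbs_natCast] at h4
    omega
  rw [Matrix.SpecialLinearGroup.coe_one]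
  linarith

theorem final {G : Type} [Group G] (N : Subgroup G) [hN : N.Normal]
    (φ : N ≃* Multiplicative (Fin 5 → ℤ)) (ψ : G ⧸ N ≃* Gam) (g : G)
    (hg : ∀ H : Subgroup G, H.FiniteIndex → g ∈ H) : g = 1 := by
  classical
  let π₀ : G →* Gam := ψ.toMonoidHom.comp (QuotientGroup.mk' N)
  have hπ₀ : ∀ e : G, π₀ e = ψ e := fun _ => rfl
  have hker₀ : ∀ e : G, π₀ e = 1 ↔ e ∈ N := by
    intro e
    rw [hπ₀, map_eq_one_iff ψ ψ.injective, QuotientGroup.eq_one_iff]
  have hgN : g ∈ N := (hker₀ g).mp (quot_trivial π₀ g hg)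
  by_contra hg1
  -- coordinates
  set a : Fin 5 → ℤ := (φ ⟨g, hgN⟩).toAdd with ha
  have ha0 : a ≠ 0 := by
    intro h
    apply hg1
    have h1 : φ ⟨g, hgN⟩ = 1 := by
      rw [← ofAdd_toAdd (φ ⟨g, hgN⟩), ← ha, h, ofAdd_zero]
    have h2 := (map_eq_one_iff φ φ.injective).mp h1
    exact congrArg Subtype.val h2
  obtain ⟨i₀, hi₀'⟩ := Function.ne_iff.mp ha0
  have hi₀ : a i₀ ≠ 0 := hi₀'
  obtain ⟨p, hp_ge, hp⟩ := Nat.exists_infinite_primes (Nat.card M0 + (a i₀).natAbs + 3)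
  have hNc : ∀ x y : N, x * y = y * x := N_comm N φ
  have hcomN : ∀ x ∈ N, ∀ y ∈ N, x * y = y * x := fun x hx y hy =>
    congrArg Subtype.val (hNc ⟨x, hx⟩ ⟨y, hy⟩)
  let K : Subgroup G := Kp N hNc p
  haveI : K.Normal := Kp_normal N hNc p
  have hKN : K ≤ N := by
    rintro _ ⟨n, hn, rfl⟩
    exact N.pow_mem hn p
  have hKker : K ≤ π₀.ker := fun x hx => (hker₀ x).mpr (hKN hx)
  let π : G ⧸ K →* Gam := QuotientGroup.lift K π₀ hKker
  have hπ : ∀ e : G, π (e : G ⧸ K) = π₀ e := fun _ => rfl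
  have hkerE : ∀ v ∈ π.ker, ∃ n ∈ N, v = ((n : G) : G ⧸ K) := by
    intro v hv
    obtain ⟨e, rfl⟩ := QuotientGroup.mk_surjective v
    exact ⟨e, (hker₀ e).mp hv, rfl⟩
  have hexp : ∀ v ∈ π.ker, v ^ p = 1 := by
    intro v hv
    obtain ⟨n, hn, rfl⟩ := hkerE v hv
    rw [← QuotientGroup.mk_pow, QuotientGroup.eq_one_iff]
    exact ⟨n, hn, rfl⟩
  have hcomE : ∀ x ∈ π.ker, ∀ y ∈ π.ker, x * y = y * x := by
    intro x hx y hy
    obtain ⟨n, hn, rfl⟩ := hkerE x hx
    obtain ⟨m, hm, rfl⟩ := hkerE y hy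
    rw [← QuotientGroup.mk_mul, hcomN n hn m hm, QuotientGroup.mk_mul]
  have hp2 : p ≠ 2 := by omega
  have hcop : ¬ p ∣ Nat.card M0 := by
    intro h
    have := Nat.le_of_dvd Nat.card_pos h
    omega
  have hpos : (0 : ℤ) < p := by exact_mod_cast hp.pos
  have hfin : Finite π.ker := by
    haveI : NeZero p := ⟨hp.ne_zero⟩
    let F : (Fin 5 → Fin p) → π.ker := fun b =>
      ⟨(((φ.symm (Multiplicative.ofAdd (fun i => ((b i : ℕ) : ℤ)))).1 : G) : G ⧸ K), by
        show π₀ _ = 1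
        rw [hker₀]
        exact (φ.symm _).2⟩
    apply Finite.of_surjective F
    rintro ⟨v, hv⟩
    obtain ⟨n, hn, rfl⟩ := hkerE v hv
    set c : Fin 5 → ℤ := (φ ⟨n, hn⟩).toAdd with hc
    refine ⟨fun i => ⟨(c i % p).toNat, by
      have h1 := Int.emod_lt_of_pos (c i) hpos
      have h2 := Int.emod_nonneg (c i) hpos.ne'
      omega⟩, ?_⟩
    apply Subtype.ext
    show (((φ.symm (Multiplicative.ofAdd (fun i => (((c i % p).toNat : ℕ) : ℤ)))).1 : G) : G ⧸ K) =
      ((n : G) : G ⧸ K)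
    rw [QuotientGroup.eq]
    have h3 : (fun i => (((c i % p).toNat : ℕ) : ℤ)) = fun i => c i % p := by
      funext i
      exact Int.toNat_of_nonneg (Int.emod_nonneg (c i) hpos.ne')
    rw [h3]
    refine ⟨(φ.symm (Multiplicative.ofAdd (fun i => c i / p))).1, (φ.symm _).2, ?_⟩
    have h4 : (φ.symm (Multiplicative.ofAdd (fun i => c i % p)))⁻¹ * ⟨n, hn⟩ =
        (φ.symm (Multiplicative.ofAdd (fun i => c i / p))) ^ p := by
      apply φ.injective
      rw [map_mul, map_inv, map_pow, MulEquiv.apply_symm_apply, MulEquiv.apply_symm_apply]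
      apply Multiplicative.toAdd.injective
      rw [toAdd_mul, toAdd_inv, toAdd_pow, toAdd_ofAdd, toAdd_ofAdd, ← hc]
      funext i
      show -(c i % p) + c i = (p : ℕ) • (c i / p)
      have := Int.emod_add_mul_ediv (c i) p
      rw [nsmul_eq_mul]
      linarith
    have h5 := congrArg Subtype.val h4
    exact h5
  have hsurj : Function.Surjective π := by
    intro y
    obtain ⟨x, hx⟩ := ψ.surjective y
    obtain ⟨e, rfl⟩ := QuotientGroup.mk_surjective x
    exact ⟨(e : G ⧸ K), hx⟩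
  -- odd order kill
  have kill : ∀ v ∈ π.ker, ∀ k : ℕ, Nat.Coprime k p → v ^ k = 1 → v = 1 := by
    intro v hv k hk h
    have h2 := hexp v hv
    have h4 : orderOf v ∣ 1 := by
      rw [← hk]
      exact Nat.dvd_gcd (orderOf_dvd_of_pow_eq_one h) (orderOf_dvd_of_pow_eq_one h2)
    exact orderOf_eq_one_iff.mp (Nat.dvd_one.mp h4)
  have h2p : Nat.Coprime 2 p := (Nat.coprime_primes Nat.prime_two hp).mpr (fun h => hp2 h.symm)
  have D : Dat π p := by
    refine ⟨hsurj, hfin, hcomE, hp, hp2, hexp, hcop, ?_⟩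
    rcases rels N φ ψ with hA | ⟨hB1, hB2⟩
    · left
      intro v hv e
      obtain ⟨n, hn, rfl⟩ := hkerE v hv
      obtain ⟨e, rfl⟩ := QuotientGroup.mk_surjective e
      have h1 := tau_apply N φ e ⟨n, hn⟩
      rw [hA e, Module.End.one_apply] at h1
      have h2 : cj N e ⟨n, hn⟩ = ⟨n, hn⟩ := φ.injective (Multiplicative.toAdd.injective h1.symm)
      have h3 : e * n * e⁻¹ = n := congrArg Subtype.val h2
      have h4 : e * n = n * e := by
        rw [← mul_inv_eq_iff_eq_mul]; exact h3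
      rw [← QuotientGroup.mk_mul, h4, QuotientGroup.mk_mul]
    · right
      constructor
      · intro l m hlm a b v ha hb hv hav hbv
        obtain ⟨n, hn, rfl⟩ := hkerE v hv
        obtain ⟨a, rfl⟩ := QuotientGroup.mk_surjective a
        obtain ⟨b, rfl⟩ := QuotientGroup.mk_surjective b
        have h1 := hB1 l m hlm a b ha hb
        have h2 := LinearMap.congr_fun h1 (φ ⟨n, hn⟩).toAdd
        simp only [Module.End.mul_apply, LinearMap.add_apply, Module.End.one_apply, map_add,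
          tau_apply, LinearMap.zero_apply] at h2
        have h3 : (⟨n, hn⟩ : N) * cj N a ⟨n, hn⟩ * (cj N b ⟨n, hn⟩ * cj N a (cj N b ⟨n, hn⟩)) = 1 := by
          apply φ.injective
          apply Multiplicative.toAdd.injective
          rw [map_one φ, toAdd_one, map_mul φ, map_mul φ, map_mul φ, toAdd_mul, toAdd_mul, toAdd_mul]
          exact h2
        have h4 : n * (a * n * a⁻¹) * ((b * n * b⁻¹) * (a * (b * n * b⁻¹) * a⁻¹)) = 1 :=
          congrArg Subtype.val h3
        have h5 := congrArg (fun z : G => (z : G ⧸ K)) h4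
        simp only [QuotientGroup.mk_mul, QuotientGroup.mk_inv, QuotientGroup.mk_one] at h5
        rw [hbv, mul_inv_cancel_right, hav, mul_inv_cancel_right] at h5
        apply kill _ hv 4 (by
          have : (4 : ℕ) = 2 ^ 2 := by norm_num
          rw [this]; exact Nat.Coprime.pow_left 2 h2p)
        rw [← h5]
        simp only [pow_succ, pow_zero, one_mul, mul_assoc]
      · intro m g' h1 h2 a c v ha hc hv hav
        obtain ⟨n, hn, rfl⟩ := hkerE v hv
        obtain ⟨a, rfl⟩ := QuotientGroup.mk_surjective a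
        obtain ⟨c, rfl⟩ := QuotientGroup.mk_surjective c
        have h3 := hB2 m g' h1 h2 a c ha hc
        have h4 := LinearMap.congr_fun h3 (φ ⟨n, hn⟩).toAdd
        simp only [Module.End.mul_apply, LinearMap.add_apply, Module.End.one_apply, map_add,
          tau_apply] at h4
        have h5 : cj N c ⟨n, hn⟩ * cj N c (cj N a ⟨n, hn⟩) = ⟨n, hn⟩ * cj N a ⟨n, hn⟩ := by
          apply φ.injective
          apply Multiplicative.toAdd.injective
          rw [map_mul φ, map_mul φ, toAdd_mul, toAdd_mul]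
          exact h4
        have h6 : (c * n * c⁻¹) * (c * (a * n * a⁻¹) * c⁻¹) = n * (a * n * a⁻¹) :=
          congrArg Subtype.val h5
        have h7 := congrArg (fun z : G => (z : G ⧸ K)) h6
        simp only [QuotientGroup.mk_mul, QuotientGroup.mk_inv] at h7
        rw [hav, mul_inv_cancel_right] at h7
        -- (c v c⁻¹)² = v²
        have hcv : (c : G ⧸ K) * (n : G ⧸ K) * (c : G ⧸ K)⁻¹ ∈ π.ker :=
          (MonoidHom.normal_ker π).conj_mem _ hv _
        have hcomm := hcomE _ hcv _ (π.ker.inv_mem hv)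
        have h8 : (c : G ⧸ K) * (n : G ⧸ K) * (c : G ⧸ K)⁻¹ * (n : G ⧸ K)⁻¹ = 1 := by
          apply kill _ (π.ker.mul_mem hcv (π.ker.inv_mem hv)) 2 h2p
          rw [(show Commute _ _ from hcomm).mul_pow, pow_two, h7]
          group
        have h9 : (c : G ⧸ K) * (n : G ⧸ K) * (c : G ⧸ K)⁻¹ = (n : G ⧸ K) := by
          rwa [mul_inv_eq_one] at h8
        rw [← mul_inv_eq_iff_eq_mul]; exact h9
  obtain ⟨S, hS1, hS2⟩ := main_ext D
  -- S has finite index
  have hSfin : S.FiniteIndex := by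
    haveI := hfin
    let F : π.ker → (G ⧸ K) ⧸ S := fun v => (v.1 : (G ⧸ K) ⧸ S)
    haveI : Finite ((G ⧸ K) ⧸ S) := by
      apply Finite.of_surjective F
      intro y
      obtain ⟨e, rfl⟩ := QuotientGroup.mk_surjective y
      obtain ⟨t, ht, hte⟩ := hS2 e
      refine ⟨⟨e * t⁻¹, ?_⟩, ?_⟩
      · rw [MonoidHom.mem_ker, map_mul, map_inv, hte, mul_inv_cancel]
      · show ((e * t⁻¹ : G ⧸ K) : (G ⧸ K) ⧸ S) = (e : (G ⧸ K) ⧸ S)
        rw [QuotientGroup.eq]
        have : (e * t⁻¹)⁻¹ * e = t := by group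
        rw [this]; exact ht
    exact Subgroup.finiteIndex_of_finite_quotient
  have hH : (S.comap (QuotientGroup.mk' K)).FiniteIndex := by
    constructor
    rw [Subgroup.index_comap_of_surjective _ (QuotientGroup.mk'_surjective K)]
    exact hSfin.index_ne_zero
  have h1 : ((g : G) : G ⧸ K) ∈ S := hg _ hH
  have h2 : ((g : G) : G ⧸ K) = 1 := hS1 _ h1 ((hker₀ g).mpr hgN)
  rw [QuotientGroup.eq_one_iff] at h2
  obtain ⟨n, hn, hgn⟩ := h2
  have h3 : (⟨g, hgN⟩ : N) = (⟨n, hn⟩ : N) ^ p := Subtype.ext hgn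
  have h4 : a i₀ = p * (φ ⟨n, hn⟩).toAdd i₀ := by
    rw [ha, h3, map_pow, toAdd_pow, Pi.smul_apply, nsmul_eq_mul]
  have h5 : (p : ℤ) ∣ a i₀ := ⟨_, h4⟩
  have h6 : p ∣ (a i₀).natAbs := by
    have := Int.natAbs_dvd_natAbs.mpr h5
    rwa [Int.natAbs_natCast] at this
  have h7 := Nat.le_of_dvd (Int.natAbs_pos.mpr hi₀) h6
  omega

end Pool.Agent.H846R3.RF
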